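import Pool.Agent.NPC.Defs

/-!
# 2-to-1 games on regular bipartite graphs, and their second singular value
-/

set_option autoImplicit false

namespace Pool.Agent.K6.H49.TTO

/-- A constraint `(u, v, π)` between the left vertex `u` and the right vertex `v`: the label `i` of
`u` demands the label `π[i]` of `v` (`π` is the table of a map). -/
abbrev Edge : Type := ℕ × ℕ × List ℕ

/-- An instance `(n, E)`: the left vertices and the right vertices are `0, …, n - 1`, and `E` is
the list of the constraints (the constraint graph is a bipartite multigraph). -/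
abbrev Game : Type := ℕ × List Edge

/-- `G` is a (nonempty) 2-to-1 game with the labels `0, …, q - 1`: every constraint is given by a
map of the labels whose fibers have at most two elements. -/
def IsTwoToOne (q : ℕ) (G : Game) : Prop :=
  G.2 ≠ [] ∧ ∀ e ∈ G.2, e.1 < G.1 ∧ e.2.1 < G.1 ∧
    e.2.2.length = q ∧ ∀ b, (b ∈ e.2.2 → b < q) ∧ e.2.2.count b ≤ 2

/-- Every left vertex and every right vertex has the degree `d`. -/
def Regular (G : Game) (d : ℕ) : Prop :=
  ∀ u < G.1, (G.2.countP fun e => decide (e.1 = u)) = d ∧
    (G.2.countP fun e => decide (e.2.1 = u)) = d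

/-- The second singular value is at most `s`. For a regular constraint graph with biadjacency
matrix `M` (whose largest singular value belongs to the constant vectors) this says
`|fᵀ M g| ≤ s ‖f‖ ‖g‖` for all vectors `f` and `g` of sum zero. -/
def SecondLE (G : Game) (s : ℝ) : Prop :=
  ∀ f g : ℕ → ℝ, ∑ u ∈ Finset.range G.1, f u = 0 → ∑ v ∈ Finset.range G.1, g v = 0 →
    |(G.2.map fun e => f e.1 * g e.2.1).sum| ≤
      s * (√(∑ u ∈ Finset.range G.1, f u ^ 2) * √(∑ v ∈ Finset.range G.1, g v ^ 2))

/-- The number of the constraints satisfied by the labelings `f` (of the left vertices) and `g`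
(of the right vertices). -/
def numSat {q : ℕ} (G : Game) (f g : ℕ → Fin q) : ℕ :=
  G.2.countP fun e => decide (e.2.2[(f e.1 : ℕ)]? = some (g e.2.1 : ℕ))

/-- The value is `1`: some labeling satisfies all constraints. -/
def ValOne (q : ℕ) (G : Game) : Prop := ∃ f g : ℕ → Fin q, numSat G f g = G.2.length

/-- The value is at most `c`: every labeling satisfies at most the fraction `c` of the
constraints. -/
def ValLE (q : ℕ) (G : Game) (c : ℝ) : Prop :=
  ∀ f g : ℕ → Fin q, (numSat G f g : ℝ) ≤ c * (G.2.length : ℝ)

end Pool.Agent.K6.H49.TTO
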