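import Pool.Agent.K6.H49.TTO.Inst

/-!
# Degrees
-/

set_option autoImplicit false

open Finset

namespace Pool.Agent.K6.H49.TTO

variable {m K : ℕ} {cl : ℕ → Cl}

def lft (u : ℕ) (e : TE) : ℕ := if e.1 = u then 1 else 0

def rgt (v : ℕ) (e : TE) : ℕ := if e.2.1 = v then 1 else 0

/-- The variables of the clauses are numbered by `x < 3 m`. -/
def Low (m : ℕ) (cl : ℕ → Cl) : Prop :=
  ∀ j < m, (cl j).1.1 < 3 * m ∧ (cl j).2.1.1 < 3 * m ∧ (cl j).2.2.1 < 3 * m

theorem lit_lt (hl : Low m cl) {c : ℕ} (hc : c < m) (i : ℕ) : (lit (cl c) i).1 < 3 * m := by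
  obtain ⟨h1, h2, h3⟩ := hl c hc
  unfold lit
  split_ifs <;> assumption

section Sums

variable {R : Type} [AddCommMonoid R]

theorem sum_three (m : ℕ) (g : ℕ → R) :
    (∑ c ∈ range m, ∑ i ∈ range 3, g (3 * c + i)) = ∑ r ∈ range (3 * m), g r := by
  induction m with
  | zero => simp
  | succ m ih =>
    rw [sum_range_succ, ih, show 3 * (m + 1) = 3 * m + 1 + 1 + 1 by ring, sum_range_succ,
      sum_range_succ, sum_range_succ, sum_range_succ, sum_range_succ, sum_range_succ]
    simp only [range_zero, sum_empty, zero_add, add_zero, ← add_assoc]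

theorem sum_blocks (n K : ℕ) (g : ℕ → R) :
    (∑ r ∈ range n, ∑ k ∈ range K, g (r * K + k)) = ∑ v ∈ range (n * K), g v := by
  induction n with
  | zero => simp
  | succ n ih =>
    rw [sum_range_succ, ih, Nat.succ_mul, sum_range_add]

end Sums

theorem sum_ind {n u : ℕ} (hu : u < n) (a : ℕ → ℕ) :
    (∑ w ∈ range n, (if w = u then a w else 0)) = a u := by
  rw [sum_ite_eq' (range n) u a, if_pos (mem_range.2 hu)]

theorem sum_one {n u : ℕ} (hu : u < n) :
    (∑ w ∈ range n, (if w = u then 1 else 0)) = 1 := sum_ind hu fun _ => 1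

/-- The number of the occurrences of the variable `x`. -/
def cnt (m : ℕ) (cl : ℕ → Cl) (x : ℕ) : ℕ :=
  ∑ c ∈ range m, ∑ i ∈ range 3, if (lit (cl c) i).1 = x then 1 else 0

theorem filter_occs (m : ℕ) (cl : ℕ → Cl) (M w : ℕ) :
    ((occs m cl).filter fun v => decide (M + v = w)).length =
      ∑ c ∈ range m, ∑ i ∈ range 3, if M + (lit (cl c) i).1 = w then 1 else 0 := by
  unfold occs
  induction m with
  | zero => simp
  | succ n ih =>
    rw [List.range_succ, List.flatMap_append, List.filter_append, List.length_append, ih,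
      sum_range_succ]
    congr 1
    rw [sum_range_succ, sum_range_succ, sum_range_succ, sum_range_zero]
    simp only [lit, List.flatMap_cons, List.flatMap_nil, List.append_nil, List.filter_cons,
      List.filter_nil, decide_eq_true_eq, one_ne_zero, if_false, if_true,
      show (2 : ℕ) ≠ 0 by norm_num, show (2 : ℕ) ≠ 1 by norm_num]
    split_ifs <;> rfl

theorem load_t {w : ℕ} (hw : w < 3 * m) : load m cl w = 5 := if_pos hw

theorem load_x (m : ℕ) (cl : ℕ → Cl) (x : ℕ) : load m cl (3 * m + x) = 3 * cnt m cl x := by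
  unfold load cnt
  rw [if_neg (by omega), filter_occs]
  congr 1
  refine sum_congr rfl fun c _ => sum_congr rfl fun i _ => ?_
  congr 1
  exact propext ⟨fun h => by omega, fun h => by omega⟩

theorem sum_cnt (hl : Low m cl) : (∑ x ∈ range (3 * m), cnt m cl x) = 3 * m := by
  unfold cnt
  rw [sum_comm]
  calc _ = ∑ c ∈ range m, 3 := by
        refine sum_congr rfl fun c hc => ?_
        rw [sum_comm]
        calc _ = ∑ i ∈ range 3, 1 := by
              refine sum_congr rfl fun i _ => ?_
              rw [sum_ite_eq, if_pos (mem_range.2 (lit_lt hl (mem_range.1 hc) i))]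
          _ = 3 := rfl
    _ = 3 * m := by simp [mul_comm]

/-- The number of the cloud vertices. -/
theorem length_cloud (hl : Low m cl) (hK : 1 ≤ K) (hB : ∀ x < 3 * m, 3 * cnt m cl x ≤ 6 * K) :
    (cloud m K cl).length = 12 * K * (m * (3 * K - 2)) := by
  have h1 : (cloud m K cl).length = ((cloud m K cl).map fun _ => 1).sum := by simp
  rw [h1, sum_cloud]
  have h2 : (∑ v ∈ range (6 * m * K), (6 * K - load m cl (v / K)) • 1) =
      ∑ w ∈ range (6 * m), ∑ k ∈ range K, (6 * K - load m cl ((w * K + k) / K)) • 1 :=
    (sum_blocks (6 * m) K fun v => (6 * K - load m cl (v / K)) • 1).symm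
  rw [h2]
  have h3 : (∑ w ∈ range (6 * m), ∑ k ∈ range K, (6 * K - load m cl ((w * K + k) / K)) • 1) =
      ∑ w ∈ range (6 * m), K * (6 * K - load m cl w) := by
    refine sum_congr rfl fun w _ => ?_
    calc _ = ∑ k ∈ range K, (6 * K - load m cl w) := by
          refine sum_congr rfl fun k hk => ?_
          rw [smul_eq_mul, mul_one, Nat.add_comm, Nat.add_mul_div_right _ _ (by omega),
            Nat.div_eq_of_lt (mem_range.1 hk), zero_add]
      _ = _ := by simp
  rw [h3, show 6 * m = 3 * m + 3 * m by ring, sum_range_add]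
  have h4 : (∑ w ∈ range (3 * m), K * (6 * K - load m cl w)) = 3 * m * (K * (6 * K - 5)) := by
    calc _ = ∑ w ∈ range (3 * m), K * (6 * K - 5) :=
          sum_congr rfl fun w hw => by rw [load_t (mem_range.1 hw)]
      _ = _ := by simp
  have h5 : (∑ x ∈ range (3 * m), K * (6 * K - load m cl (3 * m + x))) + K * (3 * (3 * m)) =
      3 * m * (K * (6 * K)) := by
    have h6 : K * (3 * (3 * m)) = ∑ x ∈ range (3 * m), K * (3 * cnt m cl x) := by
      rw [← mul_sum, ← mul_sum, sum_cnt hl]
    rw [h6, ← sum_add_distrib]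
    calc _ = ∑ x ∈ range (3 * m), K * (6 * K) := by
          refine sum_congr rfl fun x hx => ?_
          have := hB x (mem_range.1 hx)
          rw [load_x, ← mul_add]
          congr 1
          omega
      _ = _ := by simp
  rw [h4]
  obtain ⟨K', rfl⟩ : ∃ K', K = K' + 1 := ⟨K - 1, by omega⟩
  have h7 : 6 * (K' + 1) - 5 = 6 * K' + 1 := by omega
  have h8 : 3 * (K' + 1) - 2 = 3 * K' + 1 := by omega
  rw [h7, h8]
  have : (∑ x ∈ range (3 * m), (K' + 1) * (6 * (K' + 1) - load m cl (3 * m + x))) =
      3 * m * ((K' + 1) * (6 * (K' + 1))) - (K' + 1) * (3 * (3 * m)) := by omega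
  rw [this]
  have h9 : (K' + 1) * (3 * (3 * m)) ≤ 3 * m * ((K' + 1) * (6 * (K' + 1))) := by nlinarith
  zify [h9]
  ring

/-- The degree. -/
def dg (m K : ℕ) : ℕ := 12 * K * (m * (3 * K - 2))

theorem hubs_eq (m : ℕ) {K : ℕ} (hK : 1 ≤ K) :
    2 * (m * (3 * K - 2)) + hubs m K = dg m K := by
  unfold hubs dg
  obtain ⟨K', rfl⟩ : ∃ K', K = K' + 1 := ⟨K - 1, by omega⟩
  have h7 : 6 * (K' + 1) - 1 = 6 * K' + 5 := by omega
  have h8 : 3 * (K' + 1) - 2 = 3 * K' + 1 := by omega
  rw [h7, h8]
  ring

/-- The number of the vertices of a side. -/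
def nv (m K : ℕ) : ℕ := 4 * m + dg m K

theorem nv_eq (m : ℕ) {K : ℕ} (hK : 1 ≤ K) : nv m K = 6 * m * K + hubs m K := by
  unfold nv hubs dg
  obtain ⟨K', rfl⟩ : ∃ K', K = K' + 1 := ⟨K - 1, by omega⟩
  have h7 : 6 * (K' + 1) - 1 = 6 * K' + 5 := by omega
  have h8 : 3 * (K' + 1) - 2 = 3 * K' + 1 := by omega
  rw [h7, h8]
  ring

theorem deg_left (hl : Low m cl) (hK : 1 ≤ K) (hB : ∀ x < 3 * m, 3 * cnt m cl x ≤ 6 * K) {u : ℕ}
    (hu : u < nv m K) : S (lft u) (edges m K cl) = dg m K := by
  have hn := length_cloud hl hK hB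
  have hh := hubs_eq m hK
  rw [S_edges]
  simp only [S_gd, lft, smul_eq_mul]
  unfold nv at hu
  have hdg : dg m K = 12 * K * (m * (3 * K - 2)) := rfl
  generalize m * (3 * K - 2) = a at *
  generalize hubs m K = H at *
  rcases Nat.lt_or_ge u (4 * m) with h4 | h4
  · have z2 : (∑ j ∈ range (cloud m K cl).length, (2 * a * (if 4 * m + j = u then 1 else 0) +
        ∑ h ∈ range H, if 4 * m + j = u then 1 else 0)) = 0 := by
      refine sum_eq_zero fun j _ => ?_
      rw [if_neg (by omega)]
      simp
    rw [z2, add_zero]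
    rcases Nat.lt_or_ge u m with h1 | h1
    · have : ∀ c ∈ range m, (∑ i ∈ range 3, ∑ k ∈ range K, (4 * a * (if c = u then 1 else 0) +
          6 * a * ((if m + 3 * c + i = u then 1 else 0) +
            (if m + 3 * c + i = u then 1 else 0)))) = if c = u then 12 * K * a else 0 := by
        intro c _
        have h2 : ∀ i, ¬ (m + 3 * c + i = u) := fun i => by omega
        simp only [h2, if_false, add_zero, mul_zero, sum_const, card_range, smul_eq_mul]
        split_ifs <;> ring
      rw [sum_congr rfl this, sum_ind h1 (fun _ => 12 * K * a), hdg]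
    · obtain ⟨r, rfl⟩ := Nat.exists_eq_add_of_le h1
      have : (∑ c ∈ range m, ∑ i ∈ range 3, ∑ k ∈ range K,
          (4 * a * (if c = m + r then 1 else 0) +
          6 * a * ((if m + 3 * c + i = m + r then 1 else 0) +
            (if m + 3 * c + i = m + r then 1 else 0)))) =
          ∑ c ∈ range m, ∑ i ∈ range 3, if 3 * c + i = r then 12 * K * a else 0 := by
        refine sum_congr rfl fun c hc => sum_congr rfl fun i _ => ?_
        rw [mem_range] at hc
        have h2 : ¬ (c = m + r) := by omega
        have h3 : m + 3 * c + i = m + r ↔ 3 * c + i = r := by omega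
        simp only [h2, h3, if_false, mul_zero, zero_add, sum_const, card_range, smul_eq_mul]
        split_ifs <;> ring
      rw [this, sum_three m fun x => if x = r then 12 * K * a else 0,
        sum_ind (by omega) (fun _ => 12 * K * a), hdg]
  · obtain ⟨j0, rfl⟩ := Nat.exists_eq_add_of_le h4
    have z1 : (∑ c ∈ range m, ∑ i ∈ range 3, ∑ k ∈ range K,
        (4 * a * (if c = 4 * m + j0 then 1 else 0) +
        6 * a * ((if m + 3 * c + i = 4 * m + j0 then 1 else 0) +
          (if m + 3 * c + i = 4 * m + j0 then 1 else 0)))) = 0 := by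
      refine sum_eq_zero fun c hc => sum_eq_zero fun i hi => sum_eq_zero fun k _ => ?_
      rw [mem_range] at hc hi
      rw [if_neg (by omega), if_neg (by omega)]
      ring
    rw [z1, zero_add]
    have : ∀ j ∈ range (cloud m K cl).length,
        (2 * a * (if 4 * m + j = 4 * m + j0 then 1 else 0) +
        ∑ h ∈ range H, if 4 * m + j = 4 * m + j0 then 1 else 0) =
        if j = j0 then 2 * a + H else 0 := by
      intro j _
      have h3 : 4 * m + j = 4 * m + j0 ↔ j = j0 := by omega
      simp only [h3, sum_const, card_range, smul_eq_mul]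
      split_ifs <;> ring
    rw [sum_congr rfl this, sum_ind (by omega) (fun _ => 2 * a + H), hh]

theorem deg_right (hl : Low m cl) (hK : 1 ≤ K) (hB : ∀ x < 3 * m, 3 * cnt m cl x ≤ 6 * K) {v : ℕ}
    (hv : v < nv m K) : S (rgt v) (edges m K cl) = dg m K := by
  have hn := length_cloud hl hK hB
  rw [S_edges]
  simp only [S_gd, rgt, smul_eq_mul]
  rw [nv_eq m hK] at hv
  have hdg : dg m K = 12 * K * (m * (3 * K - 2)) := rfl
  generalize m * (3 * K - 2) = a at *
  generalize hubs m K = H at *
  rw [sum_add_distrib, sum_getD (cloud m K cl) fun w => 2 * a * (if w = v then 1 else 0),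
    sum_cloud]
  rcases Nat.lt_or_ge v (6 * m * K) with h6 | h6
  · -- a copy
    have z : (∑ j ∈ range (cloud m K cl).length, ∑ h ∈ range H,
        if 6 * m * K + h = v then 1 else 0) = 0 := by
      refine sum_eq_zero fun j _ => sum_eq_zero fun h _ => ?_
      rw [if_neg (by omega)]
    rw [z, add_zero]
    have e2 : (∑ v' ∈ range (6 * m * K), (6 * K - load m cl (v' / K)) •
        (2 * a * if v' = v then 1 else 0)) = (6 * K - load m cl (v / K)) * (2 * a) := by
      have : ∀ v' ∈ range (6 * m * K), (6 * K - load m cl (v' / K)) •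
          (2 * a * if v' = v then 1 else 0) =
          if v' = v then (6 * K - load m cl (v' / K)) * (2 * a) else 0 := by
        intro v' _
        rw [smul_eq_mul]
        split_ifs <;> ring
      rw [sum_congr rfl this, sum_ind h6 (fun v' => (6 * K - load m cl (v' / K)) * (2 * a))]
    rw [e2]
    have hblock : ∀ w, (∑ k ∈ range K, if w * K + k = v then 1 else 0) =
        if w = v / K then 1 else 0 := by
      intro w
      split_ifs with hw
      · have hmod := Nat.div_add_mod v K
        have hlt := Nat.mod_lt v (by omega : 0 < K)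
        have : ∀ k ∈ range K, (if w * K + k = v then 1 else 0) =
            if k = v % K then 1 else 0 := by
          intro k _
          congr 1
          rw [hw, mul_comm]
          exact propext ⟨fun h => by omega, fun h => by omega⟩
        rw [sum_congr rfl this, sum_one hlt]
      · refine sum_eq_zero fun k hk => ?_
        rw [if_neg]
        intro h
        apply hw
        rw [← h, Nat.add_comm, Nat.add_mul_div_right _ _ (by omega),
          Nat.div_eq_of_lt (mem_range.1 hk), zero_add]
    have e1 : (∑ c ∈ range m, ∑ i ∈ range 3, ∑ k ∈ range K,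
        (4 * a * (if (3 * c + i) * K + k = v then 1 else 0) +
        6 * a * ((if (3 * c + i) * K + k = v then 1 else 0) +
          (if (3 * m + (lit (cl c) i).1) * K + k = v then 1 else 0)))) =
        2 * a * load m cl (v / K) := by
      have : ∀ c ∈ range m, ∀ i ∈ range 3, (∑ k ∈ range K,
          (4 * a * (if (3 * c + i) * K + k = v then 1 else 0) +
          6 * a * ((if (3 * c + i) * K + k = v then 1 else 0) +
            (if (3 * m + (lit (cl c) i).1) * K + k = v then 1 else 0)))) =
          (if 3 * c + i = v / K then 10 * a else 0) +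
            6 * a * (if 3 * m + (lit (cl c) i).1 = v / K then 1 else 0) := by
        intro c _ i _
        rw [sum_add_distrib, ← mul_sum, ← mul_sum, sum_add_distrib, hblock, hblock]
        split_ifs <;> ring
      rw [sum_congr rfl fun c hc => sum_congr rfl fun i hi => this c hc i hi]
      simp only [sum_add_distrib]
      rw [sum_three m fun x => if x = v / K then 10 * a else 0]
      simp only [← mul_sum]
      unfold load
      split_ifs with h3
      · rw [sum_ind h3 (fun _ => 10 * a)]
        have : (∑ c ∈ range m, ∑ i ∈ range 3, if 3 * m + (lit (cl c) i).1 = v / K then 1 else 0)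
            = 0 := by
          refine sum_eq_zero fun c _ => sum_eq_zero fun i _ => ?_
          rw [if_neg (by omega)]
        rw [this]
        ring
      · rw [filter_occs]
        have : (∑ x ∈ range (3 * m), if x = v / K then 10 * a else 0) = 0 := by
          refine sum_eq_zero fun x hx => ?_
          rw [mem_range] at hx
          rw [if_neg (by omega)]
        rw [this]
        ring
    rw [e1, hdg]
    have hload : load m cl (v / K) ≤ 6 * K := by
      rcases Nat.lt_or_ge (v / K) (3 * m) with h3 | h3
      · rw [load_t h3]; omega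
      · obtain ⟨x, hx⟩ := Nat.exists_eq_add_of_le h3
        rw [hx, load_x]
        apply hB
        have : v / K < 6 * m := Nat.div_lt_of_lt_mul (by rw [mul_comm]; exact h6)
        omega
    obtain ⟨d, hd⟩ := Nat.exists_eq_add_of_le hload
    have : 6 * K - load m cl (v / K) = d := by omega
    rw [this]
    calc _ = 2 * a * (load m cl (v / K) + d) := by ring
      _ = _ := by rw [← hd]; ring
  · -- a hub
    obtain ⟨h0, rfl⟩ := Nat.exists_eq_add_of_le h6
    have hlow : ∀ w < 6 * m, ∀ k < K, w * K + k < 6 * m * K := by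
      intro w hw k hk
      calc w * K + k < w * K + K := by omega
        _ = (w + 1) * K := by ring
        _ ≤ 6 * m * K := Nat.mul_le_mul_right _ (by omega)
    have z1 : (∑ c ∈ range m, ∑ i ∈ range 3, ∑ k ∈ range K,
        (4 * a * (if (3 * c + i) * K + k = 6 * m * K + h0 then 1 else 0) +
        6 * a * ((if (3 * c + i) * K + k = 6 * m * K + h0 then 1 else 0) +
          (if (3 * m + (lit (cl c) i).1) * K + k = 6 * m * K + h0 then 1 else 0)))) = 0 := by
      refine sum_eq_zero fun c hc => sum_eq_zero fun i hi => sum_eq_zero fun k hk => ?_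
      rw [mem_range] at hc hi hk
      have h1 := hlow (3 * c + i) (by omega) k hk
      have h2 := hlow (3 * m + (lit (cl c) i).1) (by have := lit_lt hl hc i; omega) k hk
      rw [if_neg (by omega), if_neg (by omega)]
      ring
    have z2 : (∑ v' ∈ range (6 * m * K), (6 * K - load m cl (v' / K)) •
        (2 * a * if v' = 6 * m * K + h0 then 1 else 0)) = 0 := by
      refine sum_eq_zero fun v' hv' => ?_
      rw [mem_range] at hv'
      rw [if_neg (by omega)]
      simp
    rw [z1, z2]
    have : ∀ j ∈ range (cloud m K cl).length, (∑ h ∈ range H,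
        if 6 * m * K + h = 6 * m * K + h0 then 1 else 0) = 1 := by
      intro j _
      have h3 : ∀ h, (6 * m * K + h = 6 * m * K + h0 ↔ h = h0) := fun h => by omega
      simp only [h3]
      exact sum_one (by omega)
    rw [sum_congr rfl this, sum_const, card_range, smul_eq_mul, hn, hdg]
    ring

theorem mem_cloud {v : ℕ} (h : v ∈ cloud m K cl) : v < 6 * m * K := by
  unfold cloud at h
  rw [List.mem_flatMap] at h
  obtain ⟨w, hw, h2⟩ := h
  rw [List.mem_map] at h2
  obtain ⟨_, _, rfl⟩ := h2
  exact List.mem_range.1 hw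

theorem chi_ok (i : ℕ) : (chi i).length = 3 ∧
    ∀ b, (b ∈ chi i → b < 3) ∧ (chi i).count b ≤ 2 := by
  unfold chi
  split_ifs
  all_goals
    refine ⟨rfl, fun b => ⟨fun hb => ?_, ?_⟩⟩
    · simp only [List.mem_cons, List.not_mem_nil, or_false] at hb
      omega
    · by_cases h0 : b = 0
      · subst h0; decide
      · by_cases h1 : b = 1
        · subst h1; decide
        · rw [List.count_eq_zero_of_not_mem]
          · omega
          · simp only [List.mem_cons, List.not_mem_nil, or_false]
            omega

theorem xt_ok (i : Bool) : (xt i).length = 3 ∧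
    ∀ b, (b ∈ xt i → b < 3) ∧ (xt i).count b ≤ 2 := by
  unfold xt
  split_ifs
  all_goals
    refine ⟨rfl, fun b => ⟨fun hb => ?_, ?_⟩⟩
    · simp only [List.mem_cons, List.not_mem_nil, or_false] at hb
      omega
    · by_cases h0 : b = 0
      · subst h0; decide
      · by_cases h1 : b = 1
        · subst h1; decide
        · rw [List.count_eq_zero_of_not_mem]
          · omega
          · simp only [List.mem_cons, List.not_mem_nil, or_false]
            omega

theorem id_ok : ([0, 1, 2] : List ℕ).length = 3 ∧
    ∀ b, (b ∈ ([0, 1, 2] : List ℕ) → b < 3) ∧ ([0, 1, 2] : List ℕ).count b ≤ 2 := by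
  refine ⟨rfl, fun b => ⟨fun hb => ?_, ?_⟩⟩
  · simp only [List.mem_cons, List.not_mem_nil, or_false] at hb
    omega
  · have : ([0, 1, 2] : List ℕ).Nodup := by decide
    exact (List.nodup_iff_count_le_one.1 this b).trans (by omega)

/-- All edges are edges of a 2-to-1 game with three labels. -/
theorem edges_ok (hl : Low m cl) (hK : 1 ≤ K) (hB : ∀ x < 3 * m, 3 * cnt m cl x ≤ 6 * K)
    {e : TE} (he : e ∈ edges m K cl) : e.1 < nv m K ∧ e.2.1 < nv m K ∧
      e.2.2.length = 3 ∧ ∀ b, (b ∈ e.2.2 → b < 3) ∧ e.2.2.count b ≤ 2 := by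
  have hn := length_cloud hl hK hB
  have hlow : ∀ w < 6 * m, ∀ k < K, w * K + k < 6 * m * K := by
    intro w hw k hk
    calc w * K + k < w * K + K := by omega
      _ = (w + 1) * K := by ring
      _ ≤ 6 * m * K := Nat.mul_le_mul_right _ (by omega)
  have hnv := nv_eq m hK
  have hnv' : nv m K = 4 * m + dg m K := rfl
  have hdg : dg m K = 12 * K * (m * (3 * K - 2)) := rfl
  have h2 := chi_ok 2
  have hc2 : chi 2 = [0, 0, 1] := rfl
  rw [hc2] at h2
  unfold edges at he
  rw [List.mem_append] at he
  rcases he with he | he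
  · simp only [e1, gd, List.mem_flatMap, List.mem_range, List.mem_append, List.mem_cons,
      List.not_mem_nil, or_false] at he
    obtain ⟨c, hc, i, hi, k, hk, he⟩ := he
    have g1 := hlow (3 * c + i) (by omega) k hk
    have g2 := hlow (3 * m + (lit (cl c) i).1) (by have := lit_lt hl hc i; omega) k hk
    rcases he with ⟨_, _, rfl⟩ | ⟨_, _, rfl | rfl⟩
    · exact ⟨by simp only; omega, by simp only; omega, chi_ok i⟩
    · exact ⟨by simp only; omega, by simp only; omega, h2⟩
    · exact ⟨by simp only; omega, by simp only; omega, xt_ok _⟩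
  · simp only [e2, List.mem_flatMap, List.mem_range, List.mem_append, List.mem_cons,
      List.not_mem_nil, or_false] at he
    obtain ⟨j, hj, he⟩ := he
    rcases he with ⟨_, _, rfl⟩ | ⟨h, hh, rfl⟩
    · refine ⟨by simp only; omega, ?_, id_ok⟩
      simp only
      rw [List.getD_eq_getElem _ _ hj]
      have := mem_cloud (List.getElem_mem hj)
      omega
    · exact ⟨by simp only; omega, by simp only; omega, h2⟩

/-- The number of the edges. -/
theorem length_edges (hl : Low m cl) (hK : 1 ≤ K) (hB : ∀ x < 3 * m, 3 * cnt m cl x ≤ 6 * K) :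
    (edges m K cl).length = nv m K * dg m K := by
  have h1 : ∀ l : List TE, (∀ e ∈ l, e.1 < nv m K) →
      l.length = ∑ u ∈ range (nv m K), S (lft u) l := by
    intro l
    induction l with
    | nil => intro _; simp [S]
    | cons e l ih =>
      intro h
      simp only [S_cons, sum_add_distrib]
      rw [← ih fun e he => h e (List.mem_cons_of_mem _ he), List.length_cons]
      have : (∑ u ∈ range (nv m K), lft u e) = 1 := by
        unfold lft
        rw [sum_ite_eq, if_pos (mem_range.2 (h e List.mem_cons_self))]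
      omega
  rw [h1 _ fun e he => (edges_ok hl hK hB he).1, sum_congr rfl fun u hu => deg_left hl hK hB
    (mem_range.1 hu), sum_const, card_range, smul_eq_mul]

end Pool.Agent.K6.H49.TTO
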