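import Pool.Agent.K6.H49.TTO.Pol

/-!
# The main theorem
-/

set_option autoImplicit false

open Finset

namespace Pool.Agent.K6.H49.TTO

open Pool.Agent.NPC
open Pool.Agent.H243R3.TP (Clause occ)
open Pool.Agent.K6.H49.UGX (Fm)

/-- **Hardness on expanders.** -/
theorem main : ∃ C : ℝ, 0 < C ∧ ∀ σ : ℝ, 0 < σ → σ ≤ 1 → ∀ q : ℕ, 3 ≤ q →
    ∀ L : Set (List Bool), InNP L → ∃ f : List Bool → List Bool, PolyTime f ∧
      ∀ x, ∃ (G : Game) (d : ℕ), f x = bits G ∧ IsTwoToOne q G ∧ Regular G d ∧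
        SecondLE G (σ * d) ∧ (x ∈ L → ValOne q G) ∧
        (x ∉ L → ValLE q G (1 - σ ^ 4 / C)) := by
  set B : ℕ := H243R3.PCP.Bd + 3 with hBdef
  set k : ℕ := DP.K0 + 1 with hkdef
  have hB2 : 3 ≤ B := by omega
  have hk1 : 1 ≤ k := by omega
  have hBR : (3 : ℝ) ≤ B := by exact_mod_cast hB2
  have hkR : (1 : ℝ) ≤ k := by exact_mod_cast hk1
  refine ⟨7776 * k * (B : ℝ) ^ 4, by positivity, ?_⟩
  intro σ hσ hσ1 q hq L hL
  -- the choice of t
  obtain ⟨t, ht1, ht2, ht3⟩ : ∃ t : ℕ, 1 ≤ t ∧ (3 * B + 2 : ℝ) ≤ 6 * t * σ ∧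
      (t : ℝ) * σ ≤ B := by
    refine ⟨⌈(3 * B + 2 : ℝ) / (6 * σ)⌉₊, Nat.ceil_pos.2 (by positivity), ?_, ?_⟩
    · have h := Nat.le_ceil ((3 * B + 2 : ℝ) / (6 * σ))
      rw [div_le_iff₀ (by positivity)] at h
      linarith
    · have h := (Nat.ceil_lt_add_one (by positivity : 0 ≤ (3 * B + 2 : ℝ) / (6 * σ))).le
      have h2 := mul_le_mul_of_nonneg_right h hσ.le
      have h3 : ((3 * B + 2 : ℝ) / (6 * σ) + 1) * σ = (3 * B + 2) / 6 + σ := by field_simp
      rw [h3] at h2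
      linarith
  obtain ⟨K, hK⟩ : ∃ K : ℕ, K = 6 * t ^ 2 := ⟨_, rfl⟩
  have htR : (1 : ℝ) ≤ t := by exact_mod_cast ht1
  have hKR : (K : ℝ) = 6 * t ^ 2 := by rw [hK]; push_cast; ring
  have hK1 : 1 ≤ K := by rw [hK]; have := Nat.pow_le_pow_left ht1 2; omega
  have hBK' : 3 * B ≤ 6 * K := by
    have h1 : (3 * B + 2 : ℝ) ≤ 6 * t := by nlinarith
    have h2 : (3 * B : ℝ) ≤ 6 * K := by rw [hKR]; nlinarith
    exact_mod_cast h2
  obtain ⟨f, hf, hfx⟩ := DP.gap3Sat hL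
  have hpc : PC (fun x : List Bool => x) (bits : Game → List Bool) (fun x => game q K (f x)) :=
    PC.comp (eb := (bits : Fm → List Bool)) (poly_game q K) hf
  refine ⟨fun x => bits (game q K (f x)), PC.toPolyTime hpc, fun x => ?_⟩
  obtain ⟨hne, hbd, hyes, hno⟩ := hfx x
  beta_reduce
  generalize f x = φ at hne hbd hyes hno ⊢
  have hb : ∀ v, (occ φ).count v ≤ B := fun v => (hbd v).trans (by omega)
  have hm : 0 < φ.length := List.length_pos_iff.2 hne
  have hmR : (0 : ℝ) < φ.length := by exact_mod_cast hm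
  have hlen : (game q K φ).2.length = 2 * (nv φ.length K * dg φ.length K) :=
    length_game hb (by omega) hK1 hBK'
  refine ⟨game q K φ, 2 * dg φ.length K, rfl, game_two hq hne hb (by omega) hK1 hBK',
    game_regular hb (by omega) hK1 hBK', ?_, fun hx => ?_, fun hx => ?_⟩
  · intro g g' hg hg'
    refine (game_second hb (by omega) ht1 hK hBK' g g' hg hg').trans
      (mul_le_mul_of_nonneg_right ?_ (by positivity))
    unfold dg
    push_cast [Nat.cast_sub (by omega : 2 ≤ 3 * K)]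
    rw [hKR]
    have h1 : (0 : ℝ) ≤ 12 * t * (φ.length * (3 * (6 * t ^ 2) - 2)) := by
      have : (0 : ℝ) ≤ 3 * (6 * t ^ 2) - 2 := by nlinarith
      positivity
    calc 2 * ((12 : ℝ) * t * (φ.length * (3 * (6 * t ^ 2) - 2)) * (3 * B + 2))
        ≤ 2 * ((12 * t * (φ.length * (3 * (6 * t ^ 2) - 2))) * (6 * t * σ)) :=
          mul_le_mul_of_nonneg_left (mul_le_mul_of_nonneg_left ht2 h1) (by norm_num)
      _ = _ := by ring
  · obtain ⟨A, _, _, hA⟩ := hyes hx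
    exact game_yes hq hb (by omega) hK1 hBK' A hA
  · intro g g'
    obtain ⟨u, hu1, hu2⟩ : ∃ u : ℕ, φ.length ≤ k * u ∧ ∀ t : ℕ, φ.length ≤ k * t → u ≤ t := by
      refine ⟨Nat.find (p := fun u => φ.length ≤ k * u)
        ⟨φ.length, Nat.le_mul_of_pos_left _ hk1⟩, Nat.find_spec (p := fun u => φ.length ≤ k * u)
        ⟨φ.length, Nat.le_mul_of_pos_left _ hk1⟩, fun t ht => Nat.find_min' _ ht⟩
    have hg := game_no (q := q) (K := K) (k := k) (u := u) hb (by omega) hK1 hBK' (fun A => by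
      refine (hno hx A).trans (Nat.mul_le_mul_right _ (by omega))) hu2 g g'
    generalize numSat (game q K φ) g g' = V at hg ⊢
    rw [hlen] at hg ⊢
    have hg' : (V : ℝ) + K * u * (4 * (φ.length * (3 * K - 2 : ℕ))) ≤
        (2 * (nv φ.length K * dg φ.length K) : ℕ) := by
      exact_mod_cast hg
    have hu' : (φ.length : ℝ) ≤ k * u := by exact_mod_cast hu1
    have ha : (0 : ℝ) ≤ ((3 * K - 2 : ℕ) : ℝ) := by positivity
    have hE : ((2 * (nv φ.length K * dg φ.length K) : ℕ) : ℝ) =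
        2 * ((4 * φ.length * (3 * K - 1) ^ 2) * (12 * K * (φ.length * (3 * K - 2 : ℕ)))) := by
      unfold nv dg
      push_cast [Nat.cast_sub (by omega : 2 ≤ 3 * K)]
      ring
    have key : σ ^ 4 / (7776 * k * (B : ℝ) ^ 4) *
        (2 * ((4 * φ.length * (3 * K - 1) ^ 2) * (12 * K * (φ.length * (3 * K - 2 : ℕ))))) ≤
        K * u * (4 * (φ.length * (3 * K - 2 : ℕ))) := by
      rw [div_mul_eq_mul_div, div_le_iff₀ (by positivity)]
      have h1 : σ ^ 4 * (3 * K - 1) ^ 2 ≤ 324 * (B : ℝ) ^ 4 := by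
        have h2 : (3 * K - 1 : ℝ) ^ 2 ≤ (3 * K) ^ 2 := by
          have : (1 : ℝ) ≤ K := by exact_mod_cast hK1
          exact pow_le_pow_left₀ (by linarith) (by linarith) 2
        calc σ ^ 4 * (3 * K - 1) ^ 2 ≤ σ ^ 4 * (3 * K) ^ 2 :=
              mul_le_mul_of_nonneg_left h2 (by positivity)
          _ = 324 * (t * σ) ^ 4 := by rw [hKR]; ring
          _ ≤ 324 * (B : ℝ) ^ 4 := by
              refine mul_le_mul_of_nonneg_left ?_ (by norm_num)
              exact pow_le_pow_left₀ (by positivity) ht3 4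
      have h2 : (σ ^ 4 * (3 * K - 1) ^ 2) * φ.length ≤ (324 * (B : ℝ) ^ 4) * (k * u) :=
        mul_le_mul h1 hu' (by positivity) (by positivity)
      have h3 : (0 : ℝ) ≤ 96 * K * (φ.length * (3 * K - 2 : ℕ)) := by positivity
      calc σ ^ 4 * (2 * ((4 * φ.length * (3 * K - 1) ^ 2) *
            (12 * K * (φ.length * (3 * K - 2 : ℕ)))))
          = (96 * K * (φ.length * (3 * K - 2 : ℕ))) *
            ((σ ^ 4 * (3 * K - 1) ^ 2) * φ.length) := by ring
        _ ≤ (96 * K * (φ.length * (3 * K - 2 : ℕ))) * ((324 * (B : ℝ) ^ 4) * (k * u)) :=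
            mul_le_mul_of_nonneg_left h2 h3
        _ = _ := by ring
    rw [← hE] at key
    have h3 : (1 - σ ^ 4 / (7776 * k * (B : ℝ) ^ 4)) *
        ((2 * (nv φ.length K * dg φ.length K) : ℕ) : ℝ) =
        (2 * (nv φ.length K * dg φ.length K) : ℕ) - σ ^ 4 / (7776 * k * (B : ℝ) ^ 4) *
        (2 * (nv φ.length K * dg φ.length K) : ℕ) := by ring
    rw [h3]
    linarith

end Pool.Agent.K6.H49.TTO
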