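import Mathlib

/-!
# The game of the reduction, and sums over its edges
-/

set_option autoImplicit false

open Finset

namespace Pool.Agent.K6.H49.TTO

abbrev TE : Type := ℕ × ℕ × List ℕ

/-- A clause: three pairs of the number of a variable and a sign. -/
abbrev Cl : Type := (ℕ × Bool) × (ℕ × Bool) × (ℕ × Bool)

section Sums

variable {R : Type} [AddCommMonoid R]

/-- The sum of `F` over the list. -/
def S (F : TE → R) (l : List TE) : R := (l.map F).sum

theorem S_nil (F : TE → R) : S F [] = 0 := rfl

theorem S_cons (F : TE → R) (e : TE) (l : List TE) : S F (e :: l) = F e + S F l := by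
  simp [S]

theorem S_append (F : TE → R) (l l' : List TE) : S F (l ++ l') = S F l + S F l' := by
  simp [S]

theorem S_range (F : TE → R) (n : ℕ) (g : ℕ → List TE) :
    S F ((List.range n).flatMap g) = ∑ i ∈ range n, S F (g i) := by
  induction n with
  | zero => simp [S]
  | succ n ih =>
    rw [List.range_succ, List.flatMap_append, S_append, ih, sum_range_succ]
    simp [S]

end Sums

/-! ### The edges

`m` clauses, `K` copies; left vertices: clauses `c < m`, literals `m + 3 c + i`, cloud vertices
`4 m + j`; right vertices: copies `w K + k` of the choices `w = 3 c + i` and of the variables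
`w = 3 m + x`, hubs `6 m K + h`. -/

/-- The literal number `i` of a clause. -/
def lit (c : Cl) (i : ℕ) : ℕ × Bool := if i = 0 then c.1 else if i = 1 then c.2.1 else c.2.2

/-- The table of the indicator of `i`. -/
def chi (i : ℕ) : List ℕ := if i = 0 then [1, 0, 0] else if i = 1 then [0, 1, 0] else [0, 0, 1]

/-- The table of a literal vertex for its variable. -/
def xt (b : Bool) : List ℕ := if b then [0, 1, 1] else [0, 1, 0]

/-- The three edges of copy `k` of the literal `i` of the clause `c`, with multiplicities `4 a`
and `6 a`. -/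
def gd (m K a : ℕ) (cl : ℕ → Cl) (c i k : ℕ) : List TE :=
  ((List.range (4 * a)).flatMap fun _ => [(c, (3 * c + i) * K + k, chi i)]) ++
  ((List.range (6 * a)).flatMap fun _ => [(m + 3 * c + i, (3 * c + i) * K + k, [0, 0, 1]),
    (m + 3 * c + i, (3 * m + (lit (cl c) i).1) * K + k, xt (lit (cl c) i).2)])

def e1 (m K a : ℕ) (cl : ℕ → Cl) : List TE :=
  (List.range m).flatMap fun c => (List.range 3).flatMap fun i =>
    (List.range K).flatMap fun k => gd m K a cl c i k

/-- The variables of the literals. -/
def occs (m : ℕ) (cl : ℕ → Cl) : List ℕ :=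
  (List.range m).flatMap fun j => [(cl j).1.1, (cl j).2.1.1, (cl j).2.2.1]

/-- The load of a base vertex. -/
def load (m : ℕ) (cl : ℕ → Cl) (w : ℕ) : ℕ :=
  if w < 3 * m then 5 else 3 * ((occs m cl).filter fun v => decide (3 * m + v = w)).length

/-- The right vertices of the cloud vertices. -/
def cloud (m K : ℕ) (cl : ℕ → Cl) : List ℕ :=
  (List.range (6 * m * K)).flatMap fun v =>
    (List.range (6 * K - load m cl (v / K))).map fun _ => v

/-- Edges between cloud vertices and right vertices; edges between cloud vertices and hubs. -/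
def e2 (m K a H : ℕ) (cl : ℕ → Cl) : List TE :=
  (List.range (cloud m K cl).length).flatMap fun j =>
    ((List.range (2 * a)).flatMap fun _ => [(4 * m + j, (cloud m K cl).getD j 0, [0, 1, 2])]) ++
    ((List.range H).flatMap fun h => [(4 * m + j, 6 * m * K + h, [0, 0, 1])])

def hubs (m K : ℕ) : ℕ := 2 * m * (3 * K - 2) * (6 * K - 1)

def edges (m K : ℕ) (cl : ℕ → Cl) : List TE :=
  e1 m K (m * (3 * K - 2)) cl ++ e2 m K (m * (3 * K - 2)) (hubs m K) cl

section Sums

variable {R : Type} [AddCommMonoid R]

theorem sum_list_range (n : ℕ) (g : ℕ → R) :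
    ((List.range n).map g).sum = ∑ i ∈ range n, g i := by
  induction n with
  | zero => simp
  | succ n ih => rw [List.range_succ, List.map_append, List.sum_append, ih, sum_range_succ]; simp

/-- Sums over the positions of the cloud list. -/
theorem sum_getD (L : List ℕ) (F : ℕ → R) :
    (∑ j ∈ range L.length, F (L.getD j 0)) = (L.map F).sum := by
  induction L with
  | nil => simp
  | cons c L ih =>
    rw [List.length_cons, sum_range_succ']
    simp only [List.getD_cons_succ, List.getD_cons_zero, List.map_cons, List.sum_cons]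
    rw [ih, add_comm]

theorem sum_cloud (m K : ℕ) (cl : ℕ → Cl) (F : ℕ → R) :
    ((cloud m K cl).map F).sum =
      ∑ v ∈ range (6 * m * K), (6 * K - load m cl (v / K)) • F v := by
  unfold cloud
  generalize 6 * m * K = n
  induction n with
  | zero => simp
  | succ n ih =>
    rw [List.range_succ, List.flatMap_append, List.map_append, List.sum_append, ih,
      sum_range_succ]
    simp [List.map_const']

theorem S_gd (F : TE → R) (m K a : ℕ) (cl : ℕ → Cl) (c i k : ℕ) : S F (gd m K a cl c i k) =
    (4 * a) • F (c, (3 * c + i) * K + k, chi i) +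
    (6 * a) • (F (m + 3 * c + i, (3 * c + i) * K + k, [0, 0, 1]) +
      F (m + 3 * c + i, (3 * m + (lit (cl c) i).1) * K + k, xt (lit (cl c) i).2)) := by
  unfold gd
  rw [S_append, S_range, S_range]
  simp only [S_cons, S_nil, add_zero, sum_const, card_range]

theorem S_edges (F : TE → R) (m K : ℕ) (cl : ℕ → Cl) : S F (edges m K cl) =
    (∑ c ∈ range m, ∑ i ∈ range 3, ∑ k ∈ range K, S F (gd m K (m * (3 * K - 2)) cl c i k)) +
    (∑ j ∈ range (cloud m K cl).length,
      ((2 * (m * (3 * K - 2))) • F (4 * m + j, (cloud m K cl).getD j 0, [0, 1, 2]) +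
      ∑ h ∈ range (hubs m K), F (4 * m + j, 6 * m * K + h, [0, 0, 1]))) := by
  unfold edges e1 e2
  rw [S_append]
  simp only [S_range, S_append]
  simp only [S_cons, S_nil, add_zero, sum_const, card_range]

end Sums

end Pool.Agent.K6.H49.TTO
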