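import Pool.Agent.K6.H49.TTO.Red
import Pool.Agent.K6.H49.UGX.Pol

/-!
# The reduction is computable in polynomial time
-/

set_option autoImplicit false

namespace Pool.Agent.K6.H49.TTO

open Pool.Agent.NPC
open Pool.Agent.H243R3.TP (Clause occ)
open Pool.Agent.K6.H49.UGX (cls Fm poly_occ poly_cls uPoly_len)

section
variable {α : Type} [TEnc α]

attribute [local fun_prop] poly_occ Poly.index poly_cls

theorem poly_lit {c : α → Cl} {i : α → ℕ} (hc : Poly c) (hi : Poly i) :
    Poly (fun a => lit (c a) (i a)) := by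
  unfold lit
  fun_prop

theorem poly_chi {i : α → ℕ} (hi : Poly i) : Poly (fun a => chi (i a)) := by
  unfold chi
  fun_prop

theorem poly_xt {b : α → Bool} (hb : Poly b) : Poly (fun a => xt (b a)) := by
  unfold xt
  fun_prop

attribute [local fun_prop] poly_lit poly_chi poly_xt

theorem poly_occs {φ : α → Fm} (hφ : Poly φ) :
    Poly (fun a => occs (φ a).length (cls (φ a))) := by
  have h : Poly (fun φ : Fm => occs φ.length (cls φ)) := by
    unfold occs
    exact NPC.Poly.flatMap (F := fun (φ : Fm) (j : ℕ) =>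
      [(cls φ j).1.1, (cls φ j).2.1.1, (cls φ j).2.2.1]) uPoly_len.range
      (by fun_prop)
  exact h.comp hφ

attribute [local fun_prop] poly_occs

theorem poly_load {φ : α → Fm} {w : α → ℕ} (hφ : Poly φ) (hw : Poly w) :
    Poly (fun a => load (φ a).length (cls (φ a)) (w a)) := by
  unfold load
  fun_prop

attribute [local fun_prop] poly_load

theorem poly_cloud (K : ℕ) : Poly (fun φ : Fm => cloud φ.length K (cls φ)) := by
  unfold cloud
  have h2 : Poly (fun p : Fm × ℕ =>
      (List.range (6 * K - load p.1.length (cls p.1) (p.2 / K))).map fun _ => p.2) :=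
    NPC.Poly.map (F := fun (p : Fm × ℕ) (_ : ℕ) => p.2)
      (UPoly.of_le (Poly.sub (NPC.Poly.const (6 * K)) (by fun_prop))
        (UPoly.const (6 * K)) (fun p => Nat.sub_le _ _)).range (by fun_prop)
  exact NPC.Poly.flatMap (F := fun (φ : Fm) (v : ℕ) =>
    (List.range (6 * K - load φ.length (cls φ) (v / K))).map fun _ => v)
    (UPoly.mul (UPoly.mul (UPoly.const 6) uPoly_len) (UPoly.const K)).range h2

theorem poly_cloud' (K : ℕ) {φ : α → Fm} (hφ : Poly φ) :
    Poly (fun a => cloud (φ a).length K (cls (φ a))) := (poly_cloud K).comp hφ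

attribute [local fun_prop] poly_cloud'

theorem uPoly_a (K : ℕ) : UPoly (fun φ : Fm => φ.length * (3 * K - 2)) :=
  UPoly.mul uPoly_len (UPoly.const _)

theorem uPoly_hubs (K : ℕ) : UPoly (fun φ : Fm => hubs φ.length K) := by
  unfold hubs
  exact UPoly.mul (UPoly.mul (UPoly.mul (UPoly.const 2) uPoly_len) (UPoly.const _))
    (UPoly.const _)

theorem poly_gd (K : ℕ) : Poly (fun p : ((Fm × ℕ) × ℕ) × ℕ =>
    gd p.1.1.1.length K (p.1.1.1.length * (3 * K - 2)) (cls p.1.1.1) p.1.1.2 p.1.2 p.2) := by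
  unfold gd
  have hφ : Poly (fun p : ((Fm × ℕ) × ℕ) × ℕ => p.1.1.1) := by fun_prop
  refine Poly.append ?_ ?_
  · exact NPC.Poly.flatMap (F := fun (p : ((Fm × ℕ) × ℕ) × ℕ) (_ : ℕ) =>
      [((p.1.1.2, (3 * p.1.1.2 + p.1.2) * K + p.2, chi p.1.2) : TE)])
      ((UPoly.mul (UPoly.const 4) (uPoly_a K)).comp hφ).range (by fun_prop)
  · exact NPC.Poly.flatMap (F := fun (p : ((Fm × ℕ) × ℕ) × ℕ) (_ : ℕ) =>
      [((p.1.1.1.length + 3 * p.1.1.2 + p.1.2, (3 * p.1.1.2 + p.1.2) * K + p.2, [0, 0, 1]) : TE),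
        (p.1.1.1.length + 3 * p.1.1.2 + p.1.2,
          (3 * p.1.1.1.length + (lit (cls p.1.1.1 p.1.1.2) p.1.2).1) * K + p.2,
          xt (lit (cls p.1.1.1 p.1.1.2) p.1.2).2)])
      ((UPoly.mul (UPoly.const 6) (uPoly_a K)).comp hφ).range (by fun_prop)

theorem poly_e1 (K : ℕ) :
    Poly (fun φ : Fm => e1 φ.length K (φ.length * (3 * K - 2)) (cls φ)) := by
  unfold e1
  have h1 : Poly (fun p : (Fm × ℕ) × ℕ => (List.range K).flatMap fun k =>
      gd p.1.1.length K (p.1.1.length * (3 * K - 2)) (cls p.1.1) p.1.2 p.2 k) :=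
    NPC.Poly.flatMap (F := fun (p : (Fm × ℕ) × ℕ) (k : ℕ) =>
      gd p.1.1.length K (p.1.1.length * (3 * K - 2)) (cls p.1.1) p.1.2 p.2 k)
      (NPC.Poly.const _) (poly_gd K)
  have h2 : Poly (fun p : Fm × ℕ => (List.range 3).flatMap fun i =>
      (List.range K).flatMap fun k =>
      gd p.1.length K (p.1.length * (3 * K - 2)) (cls p.1) p.2 i k) :=
    NPC.Poly.flatMap (F := fun (p : Fm × ℕ) (i : ℕ) => (List.range K).flatMap fun k =>
      gd p.1.length K (p.1.length * (3 * K - 2)) (cls p.1) p.2 i k) (NPC.Poly.const _) h1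
  exact NPC.Poly.flatMap (F := fun (φ : Fm) (c : ℕ) => (List.range 3).flatMap fun i =>
      (List.range K).flatMap fun k =>
      gd φ.length K (φ.length * (3 * K - 2)) (cls φ) c i k) uPoly_len.range h2

theorem poly_e2 (K : ℕ) : Poly (fun φ : Fm =>
    e2 φ.length K (φ.length * (3 * K - 2)) (hubs φ.length K) (cls φ)) := by
  unfold e2
  have hφ : Poly (fun p : Fm × ℕ => p.1) := by fun_prop
  have h1 : Poly (fun p : Fm × ℕ =>
      ((List.range (2 * (p.1.length * (3 * K - 2)))).flatMap fun _ =>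
        [((4 * p.1.length + p.2, (cloud p.1.length K (cls p.1)).getD p.2 0, [0, 1, 2]) : TE)]) ++
      ((List.range (hubs p.1.length K)).flatMap fun h =>
        [((4 * p.1.length + p.2, 6 * p.1.length * K + h, [0, 0, 1]) : TE)])) := by
    refine Poly.append ?_ ?_
    · exact NPC.Poly.flatMap (F := fun (p : Fm × ℕ) (_ : ℕ) =>
        [((4 * p.1.length + p.2, (cloud p.1.length K (cls p.1)).getD p.2 0, [0, 1, 2]) : TE)])
        ((UPoly.mul (UPoly.const 2) (uPoly_a K)).comp hφ).range (by fun_prop)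
    · exact NPC.Poly.flatMap (F := fun (p : Fm × ℕ) (h : ℕ) =>
        [((4 * p.1.length + p.2, 6 * p.1.length * K + h, [0, 0, 1]) : TE)])
        ((uPoly_hubs K).comp hφ).range (by fun_prop)
  exact NPC.Poly.flatMap (F := fun (φ : Fm) (j : ℕ) =>
      ((List.range (2 * (φ.length * (3 * K - 2)))).flatMap fun _ =>
        [((4 * φ.length + j, (cloud φ.length K (cls φ)).getD j 0, [0, 1, 2]) : TE)]) ++
      ((List.range (hubs φ.length K)).flatMap fun h =>
        [((4 * φ.length + j, 6 * φ.length * K + h, [0, 0, 1]) : TE)]))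
    (UPoly.length (poly_cloud K)).range h1

theorem poly_edges (K : ℕ) : Poly (fun φ : Fm => edges φ.length K (cls φ)) := by
  unfold edges
  exact Poly.append (poly_e1 K) (poly_e2 K)

theorem poly_ext (q : ℕ) (z : Bool) {π : α → List ℕ} (hπ : Poly π) :
    Poly (fun a => ext q z (π a)) := by
  unfold ext
  exact Poly.append hπ (NPC.Poly.const _)

attribute [local fun_prop] poly_ext

theorem poly_game (q K : ℕ) : Poly (game q K) := by
  unfold game
  refine Poly.pair ?_ ?_
  · unfold nv dg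
    exact (UPoly.add (UPoly.mul (UPoly.const 4) uPoly_len)
      (UPoly.mul (UPoly.const (12 * K)) (uPoly_a K))).toPoly
  · unfold dbl
    exact NPC.Poly.flatMap (F := fun (_ : Fm) (e : TE) =>
      [((e.1, e.2.1, ext q false e.2.2) : TE), (e.1, e.2.1, ext q true e.2.2)]) (poly_edges K)
      (by fun_prop)

end

end Pool.Agent.K6.H49.TTO
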