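import Pool.Agent.K6.H49.TTO.Deg

/-!
# The second singular value
-/

set_option autoImplicit false

open Finset

namespace Pool.Agent.K6.H49.TTO

variable {m K t ℓ : ℕ} {cl : ℕ → Cl}

/-- The bilinear form of the adjacency matrix. -/
def bil (f g : ℕ → ℝ) (e : TE) : ℝ := f e.1 * g e.2.1

/-- The part of the gadgets, divided by `2 a`. -/
noncomputable def gsum (m K : ℕ) (cl : ℕ → Cl) (f g : ℕ → ℝ) : ℝ :=
  ∑ c ∈ range m, ∑ i ∈ range 3, ∑ k ∈ range K,
    (2 * (f c * g ((3 * c + i) * K + k)) +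
      3 * (f (m + 3 * c + i) * g ((3 * c + i) * K + k) +
        f (m + 3 * c + i) * g ((3 * m + (lit (cl c) i).1) * K + k)))

theorem bil_eq (f g : ℕ → ℝ) :
    S (bil f g) (edges m K cl) = 2 * (m * (3 * K - 2) : ℕ) * gsum m K cl f g +
      2 * (m * (3 * K - 2) : ℕ) *
        (∑ j ∈ range (cloud m K cl).length, f (4 * m + j) * g ((cloud m K cl).getD j 0)) +
      (∑ j ∈ range (cloud m K cl).length, f (4 * m + j)) *
        (∑ h ∈ range (hubs m K), g (6 * m * K + h)) := by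
  rw [S_edges, gsum, sum_mul_sum, mul_sum, mul_sum, add_assoc, ← sum_add_distrib]
  generalize m * (3 * K - 2) = a
  congr 1
  · refine sum_congr rfl fun c _ => ?_
    rw [mul_sum]
    refine sum_congr rfl fun i _ => ?_
    rw [mul_sum]
    refine sum_congr rfl fun k _ => ?_
    rw [S_gd]
    simp only [bil, nsmul_eq_mul]
    push_cast
    ring
  · refine sum_congr rfl fun j _ => ?_
    simp only [bil, nsmul_eq_mul]
    push_cast
    ring

theorem sum_three' (m : ℕ) (g : ℕ → ℝ) :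
    (∑ c ∈ range m, ∑ i ∈ range 3, g (m + 3 * c + i)) = ∑ r ∈ range (3 * m), g (m + r) := by
  refine Eq.trans ?_ (sum_three m fun r => g (m + r))
  refine sum_congr rfl fun c _ => sum_congr rfl fun i _ => ?_
  rw [add_assoc]

theorem sum_lit (hl : Low m cl) (φ : ℕ → ℝ) :
    (∑ c ∈ range m, ∑ i ∈ range 3, φ (lit (cl c) i).1) =
      ∑ x ∈ range (3 * m), (cnt m cl x : ℝ) * φ x := by
  unfold cnt
  simp only [Nat.cast_sum, sum_mul]
  symm
  rw [sum_comm]
  refine sum_congr rfl fun c hc => ?_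
  rw [sum_comm]
  refine sum_congr rfl fun i _ => ?_
  have : ∀ x ∈ range (3 * m), (((if (lit (cl c) i).1 = x then 1 else 0 : ℕ) : ℝ)) * φ x =
      if (lit (cl c) i).1 = x then φ x else 0 := by
    intro x _
    split_ifs <;> simp
  rw [sum_congr rfl this, sum_ite_eq, if_pos (mem_range.2 (lit_lt hl (mem_range.1 hc) i))]

theorem sum_getD' (L : List ℕ) (F : ℕ → ℝ) :
    (∑ j ∈ range L.length, F (L.getD j 0)) = (L.map F).sum := sum_getD L F

theorem sum_cloud' (m K : ℕ) (cl : ℕ → Cl) (F : ℕ → ℝ) :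
    ((cloud m K cl).map F).sum =
      ∑ v ∈ range (6 * m * K), ((6 * K - load m cl (v / K) : ℕ) : ℝ) * F v := by
  rw [sum_cloud]
  exact sum_congr rfl fun v _ => by rw [nsmul_eq_mul]

/-- The part of the gadgets. -/
theorem gsum_le (hl : Low m cl) (hK : K = 6 * t ^ 2) (ht : 1 ≤ t) (h5 : 5 ≤ ℓ)
    (hB : ∀ x < 3 * m, 3 * cnt m cl x ≤ ℓ) (f g : ℕ → ℝ) :
    2 * gsum m K cl f g ≤ 6 * ℓ * t * (∑ u ∈ range (4 * m), f u ^ 2) +
      6 * t * ∑ v ∈ range (6 * m * K), g v ^ 2 := by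
  have ht' : (0 : ℝ) < t := by exact_mod_cast ht
  have hℓ' : (0 : ℝ) < ℓ := by exact_mod_cast (by omega : 0 < ℓ)
  have hKR : (K : ℝ) = 6 * t ^ 2 := by rw [hK]; push_cast; ring
  have key : ∀ x y : ℝ, 12 * ℓ * t * (x * y) ≤ ℓ ^ 2 * x ^ 2 + 36 * t ^ 2 * y ^ 2 := by
    intro x y
    nlinarith [sq_nonneg (ℓ * x - 6 * t * y)]
  have h1 : 12 * ℓ * t * gsum m K cl f g ≤
      ∑ c ∈ range m, ∑ i ∈ range 3, ∑ k ∈ range K,
        (ℓ ^ 2 * (2 * f c ^ 2 + 6 * f (m + 3 * c + i) ^ 2) +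
          36 * t ^ 2 * (5 * g ((3 * c + i) * K + k) ^ 2 +
            3 * g ((3 * m + (lit (cl c) i).1) * K + k) ^ 2)) := by
    unfold gsum
    rw [mul_sum]
    refine sum_le_sum fun c _ => ?_
    rw [mul_sum]
    refine sum_le_sum fun i _ => ?_
    rw [mul_sum]
    refine sum_le_sum fun k _ => ?_
    have k1 := key (f c) (g ((3 * c + i) * K + k))
    have k2 := key (f (m + 3 * c + i)) (g ((3 * c + i) * K + k))
    have k3 := key (f (m + 3 * c + i)) (g ((3 * m + (lit (cl c) i).1) * K + k))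
    linarith
  have h2 : (∑ c ∈ range m, ∑ i ∈ range 3, ∑ k ∈ range K,
        ((ℓ : ℝ) ^ 2 * (2 * f c ^ 2 + 6 * f (m + 3 * c + i) ^ 2) +
          36 * t ^ 2 * (5 * g ((3 * c + i) * K + k) ^ 2 +
            3 * g ((3 * m + (lit (cl c) i).1) * K + k) ^ 2))) =
      6 * K * ℓ ^ 2 * (∑ u ∈ range (4 * m), f u ^ 2) +
      36 * t ^ 2 * (5 * (∑ r ∈ range (3 * m), ∑ k ∈ range K, g (r * K + k) ^ 2) +
        3 * ∑ x ∈ range (3 * m), (cnt m cl x : ℝ) *
          ∑ k ∈ range K, g ((3 * m + x) * K + k) ^ 2) := by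
    rw [← sum_lit hl fun x => ∑ k ∈ range K, g ((3 * m + x) * K + k) ^ 2,
      ← sum_three m fun r => ∑ k ∈ range K, g (r * K + k) ^ 2,
      show 4 * m = m + 3 * m by ring, sum_range_add,
      ← sum_three' m fun u => f u ^ 2]
    simp only [mul_sum, ← sum_add_distrib, mul_add]
    refine sum_congr rfl fun c _ => ?_
    have e1 : (∑ i ∈ range 3, ∑ k ∈ range K, (ℓ : ℝ) ^ 2 * (2 * f c ^ 2)) =
        6 * K * ℓ ^ 2 * f c ^ 2 := by
      simp only [sum_const, card_range, nsmul_eq_mul]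
      push_cast
      ring
    have e2 : ∀ i, (∑ k ∈ range K, (ℓ : ℝ) ^ 2 * (6 * f (m + 3 * c + i) ^ 2)) =
        6 * K * ℓ ^ 2 * f (m + 3 * c + i) ^ 2 := by
      intro i
      simp only [sum_const, card_range, nsmul_eq_mul]
      ring
    simp only [sum_add_distrib] at *
    rw [e1]
    simp only [e2]
  have h3 : 5 * (∑ r ∈ range (3 * m), ∑ k ∈ range K, g (r * K + k) ^ 2) +
        3 * (∑ x ∈ range (3 * m), (cnt m cl x : ℝ) *
          ∑ k ∈ range K, g ((3 * m + x) * K + k) ^ 2) ≤ ℓ * ∑ v ∈ range (6 * m * K), g v ^ 2 := by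
    rw [← sum_blocks (6 * m) K fun v => g v ^ 2, show 6 * m = 3 * m + 3 * m by ring,
      sum_range_add, mul_add, mul_sum, mul_sum, mul_sum, mul_sum]
    refine add_le_add (sum_le_sum fun r _ => ?_) (sum_le_sum fun x hx => ?_)
    · refine mul_le_mul_of_nonneg_right (by exact_mod_cast h5) (sum_nonneg fun k _ => sq_nonneg _)
    · rw [← mul_assoc]
      refine mul_le_mul_of_nonneg_right ?_ (sum_nonneg fun k _ => sq_nonneg _)
      exact_mod_cast hB x (mem_range.1 hx)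
  rw [h2] at h1
  generalize gsum m K cl f g = V at h1 ⊢
  generalize 5 * (∑ r ∈ range (3 * m), ∑ k ∈ range K, g (r * K + k) ^ 2) +
        3 * (∑ x ∈ range (3 * m), (cnt m cl x : ℝ) *
          ∑ k ∈ range K, g ((3 * m + x) * K + k) ^ 2) = X at h1 h3
  generalize (∑ v ∈ range (6 * m * K), g v ^ 2) = Q at h3 ⊢
  generalize (∑ u ∈ range (4 * m), f u ^ 2) = P at h1 ⊢
  rw [hKR] at h1
  have h4 : 36 * (t : ℝ) ^ 2 * X ≤ 36 * t ^ 2 * (ℓ * Q) := mul_le_mul_of_nonneg_left h3 (by positivity)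
  have h5 : (6 * ℓ * t : ℝ) * (2 * V) ≤ (6 * ℓ * t) * (6 * ℓ * t * P + 6 * t * Q) := by
    nlinarith
  exact le_of_mul_le_mul_left h5 (by positivity)

theorem two_mul_bil_le (hl : Low m cl) (hK : K = 6 * t ^ 2) (ht : 1 ≤ t) (h5 : 5 ≤ ℓ)
    (hB : ∀ x < 3 * m, 3 * cnt m cl x ≤ ℓ) (hB2 : ℓ ≤ 6 * K) (f g : ℕ → ℝ)
    (hf : ∑ u ∈ range (nv m K), f u = 0) (hg : ∑ u ∈ range (nv m K), g u = 0) :
    2 * S (bil f g) (edges m K cl) ≤ 12 * t * (m * (3 * K - 2) : ℕ) * (ℓ + 2) *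
      ((∑ u ∈ range (nv m K), f u ^ 2) + ∑ u ∈ range (nv m K), g u ^ 2) := by
  have hK1 : 1 ≤ K := by rw [hK]; have := Nat.pow_le_pow_left ht 2; omega
  have hn := length_cloud hl hK1 fun x hx => (hB x hx).trans hB2
  have hnv1 : nv m K = 4 * m + (cloud m K cl).length := by rw [hn]; rfl
  have hnv2 := nv_eq m hK1
  have hgad := gsum_le hl hK ht h5 hB f g
  rw [bil_eq]
  rw [hnv1] at hf
  rw [hnv2] at hg
  have hP : (∑ u ∈ range (nv m K), f u ^ 2) = (∑ u ∈ range (4 * m), f u ^ 2) +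
      ∑ j ∈ range (cloud m K cl).length, f (4 * m + j) ^ 2 := by
    rw [hnv1, sum_range_add]
  have hQ : (∑ u ∈ range (nv m K), g u ^ 2) = (∑ v ∈ range (6 * m * K), g v ^ 2) +
      ∑ h ∈ range (hubs m K), g (6 * m * K + h) ^ 2 := by
    rw [hnv2, sum_range_add]
  rw [hP, hQ]
  rw [sum_range_add] at hf hg
  have ht' : (1 : ℝ) ≤ t := by exact_mod_cast ht
  have hℓ' : (5 : ℝ) ≤ ℓ := by exact_mod_cast h5
  have hKR : (K : ℝ) = 6 * t ^ 2 := by rw [hK]; push_cast; ring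
  have ham : (m : ℝ) ≤ ((m * (3 * K - 2) : ℕ) : ℝ) := by
    exact_mod_cast Nat.le_mul_of_pos_right _ (by omega)
  have hm0 : (0 : ℝ) ≤ m := by positivity
  -- the cloud
  have hcl : 2 * (∑ j ∈ range (cloud m K cl).length,
      f (4 * m + j) * g ((cloud m K cl).getD j 0)) ≤
      6 * t * ((∑ j ∈ range (cloud m K cl).length, f (4 * m + j) ^ 2) +
        ∑ v ∈ range (6 * m * K), g v ^ 2) := by
    have e1 : (∑ j ∈ range (cloud m K cl).length, g ((cloud m K cl).getD j 0) ^ 2) ≤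
        36 * t ^ 2 * ∑ v ∈ range (6 * m * K), g v ^ 2 := by
      rw [sum_getD' (cloud m K cl) fun v => g v ^ 2, sum_cloud' m K cl fun v => g v ^ 2, mul_sum]
      refine sum_le_sum fun v _ => ?_
      refine mul_le_mul_of_nonneg_right ?_ (sq_nonneg _)
      have : ((6 * K - load m cl (v / K) : ℕ) : ℝ) ≤ ((6 * K : ℕ) : ℝ) := by
        exact_mod_cast Nat.sub_le _ _
      refine this.trans ?_
      push_cast
      rw [hKR]
      exact le_of_eq (by ring)
    have e2 : 12 * t * (∑ j ∈ range (cloud m K cl).length,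
        f (4 * m + j) * g ((cloud m K cl).getD j 0)) ≤
        36 * t ^ 2 * (∑ j ∈ range (cloud m K cl).length, f (4 * m + j) ^ 2) +
          ∑ j ∈ range (cloud m K cl).length, g ((cloud m K cl).getD j 0) ^ 2 := by
      rw [mul_sum, mul_sum, ← sum_add_distrib]
      refine sum_le_sum fun j _ => ?_
      nlinarith [sq_nonneg (6 * t * f (4 * m + j) - g ((cloud m K cl).getD j 0))]
    generalize (∑ j ∈ range (cloud m K cl).length,
        f (4 * m + j) * g ((cloud m K cl).getD j 0)) = X at e2 ⊢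
    generalize (∑ j ∈ range (cloud m K cl).length, g ((cloud m K cl).getD j 0) ^ 2) = Y at e1 e2
    generalize (∑ j ∈ range (cloud m K cl).length, f (4 * m + j) ^ 2) = P at e2 ⊢
    generalize (∑ v ∈ range (6 * m * K), g v ^ 2) = Q at e1 ⊢
    have h5 : (6 * t : ℝ) * (2 * X) ≤ (6 * t) * (6 * t * (P + Q)) := by nlinarith
    exact le_of_mul_le_mul_left h5 (by positivity)
  -- the hubs
  have hhub : 2 * ((∑ j ∈ range (cloud m K cl).length, f (4 * m + j)) *
        (∑ h ∈ range (hubs m K), g (6 * m * K + h))) ≤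
      12 * m * t * ((∑ u ∈ range (4 * m), f u ^ 2) + ∑ v ∈ range (6 * m * K), g v ^ 2) := by
    have hFh : (∑ j ∈ range (cloud m K cl).length, f (4 * m + j)) =
        - ∑ w ∈ range (4 * m), f w := by linarith
    have hGh : (∑ h ∈ range (hubs m K), g (6 * m * K + h)) =
        - ∑ w ∈ range (6 * m * K), g w := by linarith
    rw [hFh, hGh]
    have a1 := sq_sum_le_card_mul_sum_sq (s := range (4 * m)) (f := f)
    have a2 := sq_sum_le_card_mul_sum_sq (s := range (6 * m * K)) (f := g)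
    rw [card_range] at a1 a2
    push_cast at a1 a2
    rw [hKR] at a2
    generalize (∑ w ∈ range (4 * m), f w) = F at *
    generalize (∑ w ∈ range (6 * m * K), g w) = G at *
    generalize (∑ u ∈ range (4 * m), f u ^ 2) = P at *
    generalize (∑ v ∈ range (6 * m * K), g v ^ 2) = Q at *
    have h5 : (3 * t : ℝ) * (2 * (-F * -G)) ≤ (3 * t) * (12 * m * t * (P + Q)) := by
      have : (3 * t : ℝ) * (2 * (-F * -G)) ≤ 9 * t ^ 2 * F ^ 2 + G ^ 2 := by
        nlinarith [sq_nonneg (3 * t * F - G)]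
      have h6 : 9 * (t : ℝ) ^ 2 * F ^ 2 ≤ 9 * t ^ 2 * (4 * m * P) :=
        mul_le_mul_of_nonneg_left a1 (by positivity)
      nlinarith
    exact le_of_mul_le_mul_left h5 (by positivity)
  have b1 : 0 ≤ ∑ j ∈ range (cloud m K cl).length, f (4 * m + j) ^ 2 :=
    sum_nonneg fun i _ => sq_nonneg _
  have b2 : 0 ≤ ∑ h ∈ range (hubs m K), g (6 * m * K + h) ^ 2 := sum_nonneg fun i _ => sq_nonneg _
  have b3 : 0 ≤ ∑ w ∈ range (4 * m), f w ^ 2 := sum_nonneg fun i _ => sq_nonneg _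
  have b4 : 0 ≤ ∑ w ∈ range (6 * m * K), g w ^ 2 := sum_nonneg fun i _ => sq_nonneg _
  generalize (∑ j ∈ range (cloud m K cl).length,
        f (4 * m + j) * g ((cloud m K cl).getD j 0)) = X at hcl ⊢
  generalize (∑ j ∈ range (cloud m K cl).length, f (4 * m + j)) *
        (∑ h ∈ range (hubs m K), g (6 * m * K + h)) = Y at hhub ⊢
  generalize gsum m K cl f g = V at hgad ⊢
  generalize (∑ j ∈ range (cloud m K cl).length, f (4 * m + j) ^ 2) = P2 at *
  generalize (∑ h ∈ range (hubs m K), g (6 * m * K + h) ^ 2) = Q2 at *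
  generalize (∑ w ∈ range (4 * m), f w ^ 2) = P at *
  generalize (∑ w ∈ range (6 * m * K), g w ^ 2) = Q at *
  generalize ((m * (3 * K - 2) : ℕ) : ℝ) = a at *
  have ha0 : 0 ≤ a := hm0.trans ham
  have c1 : 2 * a * (2 * V) ≤ 2 * a * (6 * ℓ * t * P + 6 * t * Q) :=
    mul_le_mul_of_nonneg_left hgad (by positivity)
  have c2 : 2 * a * (2 * X) ≤ 2 * a * (6 * t * (P2 + Q)) :=
    mul_le_mul_of_nonneg_left hcl (by positivity)
  have c3 : 12 * m * t * (P + Q) ≤ 12 * a * t * (P + Q) := by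
    have : 0 ≤ t * (P + Q) := by positivity
    nlinarith
  have d1 : 0 ≤ a * t * P := by positivity
  have d2 : 0 ≤ a * t * Q := by positivity
  have d3 : 0 ≤ a * t * P2 := by positivity
  have d4 : 0 ≤ a * t * Q2 := by positivity
  have d5 : 0 ≤ (ℓ : ℝ) * (a * t * Q) := by positivity
  have d6 : 0 ≤ (ℓ : ℝ) * (a * t * P2) := by positivity
  have d7 : 0 ≤ (ℓ : ℝ) * (a * t * Q2) := by positivity
  have d8 : 5 * (a * t * Q) ≤ (ℓ : ℝ) * (a * t * Q) := mul_le_mul_of_nonneg_right hℓ' d2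
  nlinarith

theorem S_smul (c : ℝ) (f g : ℕ → ℝ) (l : List TE) :
    S (bil (fun u => c * f u) g) l = c * S (bil f g) l := by
  induction l with
  | nil => simp [S]
  | cons e l ih =>
    rw [S_cons, S_cons, ih]
    simp only [bil]
    ring

/-- From the bound with the arithmetic mean to the bound with the geometric mean. -/
theorem bil_abs_le (hl : Low m cl) (hK : K = 6 * t ^ 2) (ht : 1 ≤ t) (h5 : 5 ≤ ℓ)
    (hB : ∀ x < 3 * m, 3 * cnt m cl x ≤ ℓ) (hB2 : ℓ ≤ 6 * K) (f g : ℕ → ℝ)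
    (hf : ∑ u ∈ range (nv m K), f u = 0) (hg : ∑ u ∈ range (nv m K), g u = 0) :
    |S (bil f g) (edges m K cl)| ≤ 12 * t * (m * (3 * K - 2) : ℕ) * (ℓ + 2) *
      (√(∑ u ∈ range (nv m K), f u ^ 2) * √(∑ u ∈ range (nv m K), g u ^ 2)) := by
  have hM : (0 : ℝ) ≤ 12 * t * (m * (3 * K - 2) : ℕ) * (ℓ + 2) := by positivity
  have hmain : ∀ f : ℕ → ℝ, ∑ u ∈ range (nv m K), f u = 0 →
    2 * S (bil f g) (edges m K cl) ≤ 12 * t * (m * (3 * K - 2) : ℕ) * (ℓ + 2) *
      ((∑ u ∈ range (nv m K), f u ^ 2) + ∑ u ∈ range (nv m K), g u ^ 2) :=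
    fun f hf => two_mul_bil_le hl hK ht h5 hB hB2 f g hf hg
  generalize (12 : ℝ) * t * (m * (3 * K - 2) : ℕ) * (ℓ + 2) = M at hM hmain ⊢
  generalize hP : (∑ u ∈ range (nv m K), f u ^ 2) = P
  generalize hQ : (∑ u ∈ range (nv m K), g u ^ 2) = Q at hmain ⊢
  have hP0 : 0 ≤ P := by rw [← hP]; exact sum_nonneg fun i _ => sq_nonneg _
  have hQ0 : 0 ≤ Q := by rw [← hQ]; exact sum_nonneg fun i _ => sq_nonneg _
  have hq : ∀ c : ℝ, 0 ≤ (M * P) * (c * c) + (-2 * S (bil f g) (edges m K cl)) * c + M * Q := by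
    intro c
    have h := hmain (fun u => c * f u) (by rw [← mul_sum, hf, mul_zero])
    rw [S_smul] at h
    have : (∑ u ∈ range (nv m K), (c * f u) ^ 2) = c ^ 2 * P := by
      rw [← hP, mul_sum]
      exact sum_congr rfl fun u _ => by ring
    rw [this] at h
    nlinarith
  have hd := discrim_le_zero hq
  unfold discrim at hd
  generalize S (bil f g) (edges m K cl) = V at hd ⊢
  have h2 : V ^ 2 ≤ (M * (√P * √Q)) ^ 2 := by
    rw [mul_pow, mul_pow, Real.sq_sqrt hP0, Real.sq_sqrt hQ0]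
    nlinarith
  exact abs_le_of_sq_le_sq h2 (by positivity)

end Pool.Agent.K6.H49.TTO
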