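import Pool.Agent.K6.H49.TTO.Deg

/-!
# Completeness and soundness
-/

set_option autoImplicit false

open Finset

namespace Pool.Agent.K6.H49.TTO

variable {m K : ℕ} {cl : ℕ → Cl}

/-- `0` if the edge is satisfied, `1` if it is violated. -/
def vio (f g : ℕ → ℕ) (e : TE) : ℕ := if e.2.2[f e.1]? = some (g e.2.1) then 0 else 1

/-- The clause is true under `x`. -/
def Tru (x : ℕ → Bool) (c : Cl) : Prop := x c.1.1 = c.1.2 ∨ x c.2.1.1 = c.2.1.2 ∨ x c.2.2.1 = c.2.2.2

instance (x : ℕ → Bool) (c : Cl) : Decidable (Tru x c) := by unfold Tru; infer_instance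

theorem tru_iff (x : ℕ → Bool) (c : Cl) : Tru x c ↔ ∃ i < 3, x (lit c i).1 = (lit c i).2 := by
  unfold Tru lit
  constructor
  · rintro (h | h | h)
    · exact ⟨0, by omega, h⟩
    · exact ⟨1, by omega, h⟩
    · exact ⟨2, by omega, h⟩
  · rintro ⟨i, hi, h⟩
    obtain rfl | rfl | rfl : i = 0 ∨ i = 1 ∨ i = 2 := by omega
    · exact Or.inl h
    · exact Or.inr (Or.inl h)
    · exact Or.inr (Or.inr h)

def unsat (m : ℕ) (cl : ℕ → Cl) (x : ℕ → Bool) : ℕ :=
  ∑ j ∈ range m, if Tru x (cl j) then 0 else 1

theorem chi_get {i L b : ℕ} (hi : i < 3) (h : (chi i)[L]? = some b) :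
    L < 3 ∧ b = if L = i then 1 else 0 := by
  have hL : L < 3 := by
    by_contra hc
    rw [List.getElem?_eq_none (by rw [(chi_ok i).1]; omega)] at h
    exact absurd h (by simp)
  refine ⟨hL, ?_⟩
  obtain rfl | rfl | rfl : i = 0 ∨ i = 1 ∨ i = 2 := by omega
  all_goals
    obtain rfl | rfl | rfl : L = 0 ∨ L = 1 ∨ L = 2 := by omega
    all_goals
      simp [chi] at h
      simp [← h]

theorem gadget_sound {f g : ℕ → ℕ} {c k : ℕ}
    (h : ∀ i < 3, vio f g (c, (3 * c + i) * K + k, chi i) = 0 ∧
      vio f g (m + 3 * c + i, (3 * c + i) * K + k, [0, 0, 1]) = 0 ∧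
      vio f g (m + 3 * c + i, (3 * m + (lit (cl c) i).1) * K + k, xt (lit (cl c) i).2) = 0) :
    Tru (fun x => decide (g ((3 * m + x) * K + k) = 1)) (cl c) := by
  have hv : ∀ e, vio f g e = 0 → e.2.2[f e.1]? = some (g e.2.1) := by
    intro e he
    unfold vio at he
    by_contra hc
    rw [if_neg hc] at he
    exact one_ne_zero he
  obtain ⟨hL, _⟩ := chi_get (by omega : 0 < 3) (hv _ (h 0 (by omega)).1)
  simp only at hL
  obtain ⟨h1, h2, h3⟩ := h (f c) hL
  obtain ⟨_, hg⟩ := chi_get hL (hv _ h1)
  simp only [if_true] at hg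
  have h2' := hv _ h2
  have h3' := hv _ h3
  simp only at h2' h3'
  rw [hg] at h2'
  have hp : f (m + 3 * c + f c) = 2 := by
    generalize f (m + 3 * c + f c) = p at h2'
    have hp3 : p < 3 := by
      by_contra hc
      rw [List.getElem?_eq_none (by simp; omega)] at h2'
      exact absurd h2' (by simp)
    obtain rfl | rfl | rfl : p = 0 ∨ p = 1 ∨ p = 2 := by omega
    · simp at h2'
    · simp at h2'
    · rfl
  rw [hp] at h3'
  rw [tru_iff]
  refine ⟨f c, hL, ?_⟩
  cases hs : (lit (cl c) (f c)).2
  · rw [hs] at h3'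
    have : g ((3 * m + (lit (cl c) (f c)).1) * K + k) = 0 := by
      simpa [xt, eq_comm] using h3'
    simp [this]
  · rw [hs] at h3'
    have : g ((3 * m + (lit (cl c) (f c)).1) * K + k) = 1 := by
      simpa [xt, eq_comm] using h3'
    simp [this]

/-- Soundness: the number of the violated edges. -/
theorem viol_ge {u : ℕ} (hu : ∀ x, u ≤ unsat m cl x) (f g : ℕ → ℕ) :
    K * u * (4 * (m * (3 * K - 2))) ≤ S (vio f g) (edges m K cl) := by
  rw [S_edges]
  refine le_trans ?_ (Nat.le_add_right _ _)
  simp only [S_gd, smul_eq_mul]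
  generalize m * (3 * K - 2) = a
  have h1 : (∑ c ∈ range m, ∑ i ∈ range 3, ∑ k ∈ range K,
      (4 * a * vio f g (c, (3 * c + i) * K + k, chi i) +
        6 * a * (vio f g (m + 3 * c + i, (3 * c + i) * K + k, [0, 0, 1]) +
        vio f g (m + 3 * c + i, (3 * m + (lit (cl c) i).1) * K + k, xt (lit (cl c) i).2)))) =
      ∑ k ∈ range K, ∑ c ∈ range m, ∑ i ∈ range 3,
      (4 * a * vio f g (c, (3 * c + i) * K + k, chi i) +
        6 * a * (vio f g (m + 3 * c + i, (3 * c + i) * K + k, [0, 0, 1]) +
        vio f g (m + 3 * c + i, (3 * m + (lit (cl c) i).1) * K + k, xt (lit (cl c) i).2))) := by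
    calc _ = ∑ c ∈ range m, ∑ k ∈ range K, ∑ i ∈ range 3,
      (4 * a * vio f g (c, (3 * c + i) * K + k, chi i) +
        6 * a * (vio f g (m + 3 * c + i, (3 * c + i) * K + k, [0, 0, 1]) +
        vio f g (m + 3 * c + i, (3 * m + (lit (cl c) i).1) * K + k, xt (lit (cl c) i).2))) :=
          sum_congr rfl fun c _ => sum_comm
      _ = _ := sum_comm
  rw [h1]
  calc K * u * (4 * a) = ∑ k ∈ range K, u * (4 * a) := by
        rw [sum_const, card_range, smul_eq_mul]; ring
    _ ≤ _ := sum_le_sum fun k _ => ?_
  refine (Nat.mul_le_mul_right _ (hu fun x => decide (g ((3 * m + x) * K + k) = 1))).trans ?_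
  unfold unsat
  rw [sum_mul]
  refine sum_le_sum fun c _ => ?_
  by_cases ht : Tru (fun x => decide (g ((3 * m + x) * K + k) = 1)) (cl c)
  · rw [if_pos ht]; simp
  · rw [if_neg ht, one_mul]
    by_contra hlt
    push Not at hlt
    apply ht
    refine gadget_sound (m := m) (K := K) (f := f) (g := g) (k := k) fun i hi => ?_
    have h2 := single_le_sum (f := fun i =>
      (4 * a * vio f g (c, (3 * c + i) * K + k, chi i) +
        6 * a * (vio f g (m + 3 * c + i, (3 * c + i) * K + k, [0, 0, 1]) +
        vio f g (m + 3 * c + i, (3 * m + (lit (cl c) i).1) * K + k, xt (lit (cl c) i).2))))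
      (fun _ _ => Nat.zero_le _) (mem_range.2 hi)
    generalize vio f g (c, (3 * c + i) * K + k, chi i) = v1 at h2 ⊢
    generalize vio f g (m + 3 * c + i, (3 * c + i) * K + k, [0, 0, 1]) = v2 at h2 ⊢
    generalize vio f g (m + 3 * c + i, (3 * m + (lit (cl c) i).1) * K + k,
      xt (lit (cl c) i).2) = v3 at h2 ⊢
    have h3 : 4 * a * v1 + 6 * a * (v2 + v3) < 4 * a := lt_of_le_of_lt h2 hlt
    refine ⟨?_, ?_, ?_⟩
    · by_contra h; have : 1 ≤ v1 := by omega
      nlinarith
    · by_contra h; have : 1 ≤ v2 := by omega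
      nlinarith
    · by_contra h; have : 1 ≤ v3 := by omega
      nlinarith

/-- Completeness. -/
theorem exists_sat (hl : Low m cl) {x : ℕ → Bool} (hx : ∀ c < m, Tru x (cl c)) :
    ∃ f g : ℕ → ℕ, (∀ u, f u < 3) ∧ (∀ v, g v < 3) ∧
      ∀ e ∈ edges m K cl, e.2.2[f e.1]? = some (g e.2.1) := by
  have hch : ∀ c : ℕ, ∃ i < 3, c < m → x (lit (cl c) i).1 = (lit (cl c) i).2 := by
    intro c
    by_cases hc : c < m
    · obtain ⟨i, hi, h⟩ := (tru_iff _ _).1 (hx c hc)
      exact ⟨i, hi, fun _ => h⟩
    · exact ⟨0, by omega, fun h => absurd h hc⟩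
  choose ch hch3 hch using hch
  let g : ℕ → ℕ := fun v =>
    if v / K < 3 * m then (if v / K % 3 = ch (v / K / 3) then 1 else 0)
    else if v < 6 * m * K then (if x (v / K - 3 * m) then 1 else 0) else 0
  let f : ℕ → ℕ := fun u =>
    if u < m then ch u
    else if u < 4 * m then
      (if (u - m) % 3 = ch ((u - m) / 3) then 2
        else if x (lit (cl ((u - m) / 3)) ((u - m) % 3)).1 then 1 else 0)
    else g ((cloud m K cl).getD (u - 4 * m) 0)
  have hg1 : ∀ v, g v ≤ 1 := by
    intro v
    simp only [g]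
    split_ifs <;> omega
  have hf3 : ∀ u, f u < 3 := by
    intro u
    simp only [f]
    have := hch3 u
    have h2 := hg1 ((cloud m K cl).getD (u - 4 * m) 0)
    split_ifs <;> first | omega | exact this | exact Nat.lt_of_le_of_lt h2 (by omega)
  refine ⟨f, g, hf3, fun v => by have := hg1 v; omega, fun e he => ?_⟩
  have hdiv : ∀ w, ∀ k < K, (w * K + k) / K = w := by
    intro w k hk
    rw [Nat.add_comm, Nat.add_mul_div_right _ _ (by omega), Nat.div_eq_of_lt hk, zero_add]
  have hlow : ∀ w < 6 * m, ∀ k < K, w * K + k < 6 * m * K := by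
    intro w hw k hk
    calc w * K + k < w * K + K := by omega
      _ = (w + 1) * K := by ring
      _ ≤ 6 * m * K := Nat.mul_le_mul_right _ (by omega)
  have gt : ∀ c < m, ∀ i < 3, ∀ k < K, g ((3 * c + i) * K + k) = if i = ch c then 1 else 0 := by
    intro c hc i hi k hk
    simp only [g]
    rw [hdiv _ k hk, if_pos (by omega), show (3 * c + i) / 3 = c by omega,
      show (3 * c + i) % 3 = i by omega]
  have gx : ∀ z < 3 * m, ∀ k < K, g ((3 * m + z) * K + k) = if x z then 1 else 0 := by
    intro z hz k hk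
    simp only [g]
    rw [hdiv _ k hk, if_neg (by omega), if_pos (hlow _ (by omega) k hk),
      show 3 * m + z - 3 * m = z by omega]
  unfold edges at he
  rw [List.mem_append] at he
  rcases he with he | he
  · simp only [e1, gd, List.mem_flatMap, List.mem_range, List.mem_append, List.mem_cons,
      List.not_mem_nil, or_false] at he
    obtain ⟨c, hc, i, hi, k, hk, he⟩ := he
    have hfu : f (m + 3 * c + i) = if i = ch c then 2 else if x (lit (cl c) i).1 then 1 else 0 := by
      simp only [f]
      rw [if_neg (by omega), if_pos (by omega), show (m + 3 * c + i - m) / 3 = c by omega,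
        show (m + 3 * c + i - m) % 3 = i by omega]
    rcases he with ⟨_, _, rfl⟩ | ⟨_, _, rfl | rfl⟩
    · simp only
      rw [gt c hc i hi k hk]
      have hfc : f c = ch c := by simp only [f]; rw [if_pos hc]
      rw [hfc]
      have h3 := hch3 c
      generalize ch c = L at h3
      obtain rfl | rfl | rfl : i = 0 ∨ i = 1 ∨ i = 2 := by omega
      all_goals
        obtain rfl | rfl | rfl : L = 0 ∨ L = 1 ∨ L = 2 := by omega
        all_goals simp [chi]
    · simp only
      rw [gt c hc i hi k hk, hfu]
      split_ifs <;> simp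
    · simp only
      rw [gx _ (lit_lt hl hc i) k hk, hfu]
      by_cases h1 : i = ch c
      · have h2 := hch c hc
        rw [← h1] at h2
        rw [if_pos h1, h2]
        cases (lit (cl c) i).2 <;> simp [xt]
      · rw [if_neg h1]
        cases (lit (cl c) i).2 <;> cases x (lit (cl c) i).1 <;> simp [xt]
  · simp only [e2, List.mem_flatMap, List.mem_range, List.mem_append, List.mem_cons,
      List.not_mem_nil, or_false] at he
    obtain ⟨j, hj, he⟩ := he
    have hfj : f (4 * m + j) = g ((cloud m K cl).getD j 0) := by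
      simp only [f]
      rw [if_neg (by omega), if_neg (by omega), show 4 * m + j - 4 * m = j by omega]
    rcases he with ⟨_, _, rfl⟩ | ⟨h, hh, rfl⟩
    · simp only
      rw [hfj]
      have := hg1 ((cloud m K cl).getD j 0)
      generalize g ((cloud m K cl).getD j 0) = p at this
      obtain rfl | rfl : p = 0 ∨ p = 1 := by omega
      all_goals simp
    · simp only
      rw [hfj]
      have hz : g (6 * m * K + h) = 0 := by
        simp only [g]
        have : ¬ ((6 * m * K + h) / K < 3 * m) := by
          rcases Nat.eq_zero_or_pos K with h0 | h0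
          · exfalso
            have hc0 : cloud m K cl = [] := by
              unfold cloud
              rw [h0]
              simp
            rw [hc0] at hj
            simp at hj
          · rw [Nat.add_comm, Nat.add_mul_div_right _ _ h0]
            have h1 := Nat.zero_le (h / K)
            generalize h / K = y at h1
            have h2 : m ≤ 6 * m := by omega
            generalize h3 : 6 * m = z at *
            have h4 := Nat.zero_le m
            omega
        rw [if_neg this, if_neg (by omega)]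
      rw [hz]
      have := hg1 ((cloud m K cl).getD j 0)
      generalize g ((cloud m K cl).getD j 0) = p at this
      obtain rfl | rfl : p = 0 ∨ p = 1 := by omega
      all_goals simp

end Pool.Agent.K6.H49.TTO
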