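import Pool.Agent.K6.H49.TTO.Defs
import Pool.Agent.K6.H49.TTO.Val
import Pool.Agent.K6.H49.TTO.Spec
import Pool.Agent.K6.H49.UGX.Red

/-!
# The reduction from formulas to 2-to-1 games
-/

set_option autoImplicit false

open Finset

namespace Pool.Agent.K6.H49.TTO

open Pool.Agent.NPC
open Pool.Agent.H243R3.TP (Clause occ)
open Pool.Agent.K6.H49.UGX (cls Fm)

theorem low_cls (φ : Fm) : Low φ.length (cls φ) := UGX.low_cls φ

theorem unsat_eq (φ : Fm) (x : ℕ → Bool) :
    unsat φ.length (cls φ) x = UGX.unsat φ.length (cls φ) x := rfl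

theorem cnt_cls_le {φ : Fm} {b : ℕ} (hb : ∀ v, (occ φ).count v ≤ b) (hb1 : 1 ≤ b) {x : ℕ}
    (hx : x < 3 * φ.length) : cnt φ.length (cls φ) x ≤ b := by
  refine le_trans ?_ (UGX.cnt_cls_le (w := x) hb hb1 (by omega))
  rw [UGX.cnt_eq, sum_add_distrib]
  refine le_trans (le_of_eq ?_) (Nat.le_add_right _ _)
  unfold cnt
  refine sum_congr rfl fun c _ => ?_
  rw [sum_range_succ, sum_range_succ, sum_range_succ, sum_range_zero]
  simp only [lit, one_ne_zero, if_false, if_true, show (2 : ℕ) ≠ 0 by norm_num,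
    show (2 : ℕ) ≠ 1 by norm_num, zero_add]

/-- Extension of a table to `q` labels. -/
def ext (q : ℕ) (z : Bool) (π : List ℕ) : List ℕ :=
  π ++ (List.range (q - 3)).map fun i => i + (if z then 2 else 3)

/-- Every edge is doubled. -/
def dbl (q : ℕ) (l : List TE) : List TE :=
  l.flatMap fun e => [(e.1, e.2.1, ext q false e.2.2), (e.1, e.2.1, ext q true e.2.2)]

/-- The game of a formula. -/
noncomputable def game (q K : ℕ) (φ : Fm) : Game :=
  (nv φ.length K, dbl q (edges φ.length K (cls φ)))

theorem dbl_cons (q : ℕ) (e : TE) (l : List TE) :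
    dbl q (e :: l) = (e.1, e.2.1, ext q false e.2.2) :: (e.1, e.2.1, ext q true e.2.2) ::
      dbl q l := rfl

theorem length_dbl (q : ℕ) (l : List TE) : (dbl q l).length = 2 * l.length := by
  induction l with
  | nil => rfl
  | cons e l ih =>
    rw [dbl_cons, List.length_cons, List.length_cons, ih, List.length_cons]
    ring

theorem countP_S (q : ℕ) (l : List TE) (u : ℕ) :
    ((dbl q l).countP fun e => decide (e.1 = u)) = 2 * S (lft u) l := by
  induction l with
  | nil => rfl
  | cons e l ih =>
    rw [dbl_cons, List.countP_cons, List.countP_cons, ih, S_cons, lft]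
    simp only [decide_eq_true_eq]
    ring

theorem countP_S' (q : ℕ) (l : List TE) (u : ℕ) :
    ((dbl q l).countP fun e => decide (e.2.1 = u)) = 2 * S (rgt u) l := by
  induction l with
  | nil => rfl
  | cons e l ih =>
    rw [dbl_cons, List.countP_cons, List.countP_cons, ih, S_cons, rgt]
    simp only [decide_eq_true_eq]
    ring

theorem bil_dbl (q : ℕ) (l : List TE) (f g : ℕ → ℝ) :
    ((dbl q l).map fun e => f e.1 * g e.2.1).sum = 2 * S (bil f g) l := by
  induction l with
  | nil => simp [dbl, S]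
  | cons e l ih =>
    rw [dbl_cons, List.map_cons, List.map_cons, List.sum_cons, List.sum_cons, ih, S_cons, bil]
    ring

theorem ext_low {q : ℕ} {z : Bool} {π : List ℕ} (h : π.length = 3) {i : ℕ} (hi : i < 3) :
    (ext q z π)[i]? = π[i]? := by
  unfold ext
  rw [List.getElem?_append_left (by omega)]

theorem ext_high {q : ℕ} {z : Bool} {π : List ℕ} (h : π.length = 3) {i : ℕ} (hi : 3 ≤ i)
    (hq : i < q) : (ext q z π)[i]? = some (i - 3 + if z then 2 else 3) := by
  unfold ext
  rw [List.getElem?_append_right (by omega), h, List.getElem?_map,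
    List.getElem?_range (by omega), Option.map_some]

theorem ext_ok {q : ℕ} (hq : 3 ≤ q) (z : Bool) {π : List ℕ} (h : π.length = 3)
    (h1 : ∀ b, (b ∈ π → b < 3) ∧ π.count b ≤ 2) (h2 : π.count 2 ≤ 1) :
    (ext q z π).length = q ∧ ∀ b, (b ∈ ext q z π → b < q) ∧ (ext q z π).count b ≤ 2 := by
  have hn : ((List.range (q - 3)).map fun i => i + (if z then 2 else 3)).Nodup :=
    List.Nodup.map (fun x y hxy => by simpa using hxy) List.nodup_range
  refine ⟨?_, fun b => ⟨fun hb => ?_, ?_⟩⟩
  · unfold ext
    rw [List.length_append, h, List.length_map, List.length_range]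
    omega
  · unfold ext at hb
    rw [List.mem_append, List.mem_map] at hb
    rcases hb with hb | ⟨i, hi, rfl⟩
    · have := (h1 b).1 hb
      omega
    · rw [List.mem_range] at hi
      split_ifs <;> omega
  · unfold ext
    rw [List.count_append]
    have hc := List.nodup_iff_count_le_one.1 hn b
    have hb := (h1 b).2
    by_cases h0 : b < 2
    · have : ((List.range (q - 3)).map fun i => i + (if z then 2 else 3)).count b = 0 := by
        rw [List.count_eq_zero]
        intro hm
        rw [List.mem_map] at hm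
        obtain ⟨i, _, hi⟩ := hm
        split_ifs at hi <;> omega
      omega
    · by_cases hb2 : b = 2
      · subst hb2
        omega
      · have : π.count b = 0 := by
          rw [List.count_eq_zero]
          intro hm
          have := (h1 b).1 hm
          omega
        omega

/-- In the tables, the label `2` has at most one preimage. -/
theorem edges_two {m K : ℕ} {cl : ℕ → Cl} {e : TE} (he : e ∈ edges m K cl) :
    e.2.2.count 2 ≤ 1 := by
  have hc : ∀ i, (chi i).count 2 ≤ 1 := by
    intro i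
    unfold chi
    split_ifs <;> decide
  have hx : ∀ b, (xt b).count 2 ≤ 1 := by
    intro b
    unfold xt
    split_ifs <;> decide
  unfold edges at he
  rw [List.mem_append] at he
  rcases he with he | he
  · simp only [e1, gd, List.mem_flatMap, List.mem_range, List.mem_append, List.mem_cons,
      List.not_mem_nil, or_false] at he
    obtain ⟨c, hc', i, hi, k, hk, he⟩ := he
    rcases he with ⟨_, _, rfl⟩ | ⟨_, _, rfl | rfl⟩
    · exact hc i
    · simp only; decide
    · exact hx _
  · simp only [e2, List.mem_flatMap, List.mem_range, List.mem_append, List.mem_cons,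
      List.not_mem_nil, or_false] at he
    obtain ⟨j, hj, he⟩ := he
    rcases he with ⟨_, _, rfl⟩ | ⟨h, hh, rfl⟩
    · simp only; decide
    · simp only; decide

theorem numSat_add {q : ℕ} (l : List TE) (hl : ∀ e ∈ l, e.2.2.length = 3) (n : ℕ)
    (f g : ℕ → Fin q) :
    numSat (n, dbl q l) f g + S (vio (fun u => f u) (fun u => g u)) l ≤ 2 * l.length := by
  unfold numSat
  induction l with
  | nil => exact le_rfl
  | cons e l ih =>
    have ih' := ih fun e he => hl e (List.mem_cons_of_mem _ he)
    have h3 := hl e List.mem_cons_self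
    rw [S_cons, dbl_cons, List.countP_cons, List.countP_cons, List.length_cons]
    simp only at ih' ⊢
    have h1 : (if decide ((ext q true e.2.2)[(f e.1 : ℕ)]? = some (g e.2.1 : ℕ)) = true
          then 1 else 0) +
        (if decide ((ext q false e.2.2)[(f e.1 : ℕ)]? = some (g e.2.1 : ℕ)) = true
          then 1 else 0) +
        vio (fun u => (f u : ℕ)) (fun u => (g u : ℕ)) e ≤ 2 := by
      simp only [decide_eq_true_eq, vio]
      rcases Nat.lt_or_ge (f e.1 : ℕ) 3 with hlt | hge
      · rw [ext_low h3 hlt, ext_low h3 hlt]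
        split_ifs <;> omega
      · rw [ext_high h3 hge (f e.1).2, ext_high h3 hge (f e.1).2,
          List.getElem?_eq_none (by omega : e.2.2.length ≤ (f e.1 : ℕ))]
        simp only [Option.some.injEq, if_true, Bool.false_eq_true, if_false, reduceCtorEq]
        split_ifs <;> omega
    omega

section Game

variable {q K B : ℕ} {φ : Fm}

theorem game_pos (hφ : φ ≠ []) (hK : 1 ≤ K) : 0 < φ.length ∧ 0 < dg φ.length K ∧
    0 < nv φ.length K := by
  have h : 0 < φ.length := List.length_pos_iff.2 hφ
  have h2 : 0 < dg φ.length K := by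
    unfold dg
    have : 0 < 3 * K - 2 := by omega
    positivity
  refine ⟨h, h2, ?_⟩
  unfold nv
  omega

theorem hBK (hb : ∀ v, (occ φ).count v ≤ B) (hB : 1 ≤ B) (hBK : 3 * B ≤ 6 * K) :
    ∀ x < 3 * φ.length, 3 * cnt φ.length (cls φ) x ≤ 6 * K := fun x hx => by
  have := cnt_cls_le hb hB hx
  omega

theorem length_game (hb : ∀ v, (occ φ).count v ≤ B) (hB : 1 ≤ B) (hK : 1 ≤ K)
    (hBK' : 3 * B ≤ 6 * K) : (game q K φ).2.length = 2 * (nv φ.length K * dg φ.length K) := by
  unfold game
  rw [length_dbl, length_edges (low_cls φ) hK (hBK hb hB hBK')]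

theorem game_two (hq : 3 ≤ q) (hφ : φ ≠ []) (hb : ∀ v, (occ φ).count v ≤ B) (hB : 1 ≤ B)
    (hK : 1 ≤ K) (hBK' : 3 * B ≤ 6 * K) : IsTwoToOne q (game q K φ) := by
  refine ⟨?_, fun e he => ?_⟩
  · have hl := length_game (q := q) hb hB hK hBK'
    obtain ⟨_, h2, h3⟩ := game_pos hφ hK
    intro h'
    rw [h', List.length_nil] at hl
    have := Nat.mul_pos h3 h2
    omega
  · unfold game dbl at he
    simp only [List.mem_flatMap, List.mem_cons, List.not_mem_nil, or_false] at he
    obtain ⟨e', he', h⟩ := he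
    obtain ⟨a1, a2, a3, a4⟩ := edges_ok (low_cls φ) hK (hBK hb hB hBK') he'
    rcases h with rfl | rfl
    · exact ⟨a1, a2, ext_ok hq _ a3 a4 (edges_two he')⟩
    · exact ⟨a1, a2, ext_ok hq _ a3 a4 (edges_two he')⟩

theorem game_regular (hb : ∀ v, (occ φ).count v ≤ B) (hB : 1 ≤ B) (hK : 1 ≤ K)
    (hBK' : 3 * B ≤ 6 * K) : Regular (game q K φ) (2 * dg φ.length K) := by
  intro u hu
  unfold game
  simp only
  rw [countP_S, countP_S', deg_left (low_cls φ) hK (hBK hb hB hBK') hu,
    deg_right (low_cls φ) hK (hBK hb hB hBK') hu]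
  exact ⟨rfl, rfl⟩

theorem game_second {t : ℕ} (hb : ∀ v, (occ φ).count v ≤ B) (hB : 2 ≤ B) (ht : 1 ≤ t)
    (hK : K = 6 * t ^ 2) (hBK' : 3 * B ≤ 6 * K) :
    SecondLE (game q K φ)
      (2 * (12 * t * (φ.length * (3 * K - 2) : ℕ) * ((3 * B : ℕ) + 2))) := by
  intro f g hf hg
  have h := bil_abs_le (t := t) (ℓ := 3 * B) (low_cls φ) hK ht (by omega) (fun x hx => by
    have := cnt_cls_le hb (by omega : 1 ≤ B) hx
    omega) hBK' f g hf hg
  unfold game
  simp only
  rw [bil_dbl, abs_mul, abs_of_pos (by norm_num : (0 : ℝ) < 2), mul_assoc]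
  exact mul_le_mul_of_nonneg_left h (by norm_num)

theorem game_yes (hq : 3 ≤ q) (hb : ∀ v, (occ φ).count v ≤ B) (hB : 1 ≤ B) (hK : 1 ≤ K)
    (hBK' : 3 * B ≤ 6 * K) (A : List ℕ) (hA : H243R3.TP.numSat φ A = φ.length) :
    ValOne q (game q K φ) := by
  have hx := UGX.unsat_cls φ (fun w => decide ((occ φ).getD w 0 ∈ A)) A fun v hv => by
    rw [decide_eq_true_eq]
    have := getElem?_index hv
    rw [List.getD_eq_getElem?_getD, this]
    rfl
  rw [← unsat_eq] at hx
  have h0 : unsat φ.length (cls φ) (fun w => decide ((occ φ).getD w 0 ∈ A)) = 0 := by omega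
  obtain ⟨f, g, hf, hg, h⟩ := exists_sat (K := K) (low_cls φ)
    (x := fun w => decide ((occ φ).getD w 0 ∈ A)) (fun j hj => by
      by_contra hc
      unfold unsat at h0
      rw [sum_eq_zero_iff] at h0
      have := h0 j (mem_range.2 hj)
      rw [if_neg hc] at this
      exact one_ne_zero this)
  refine ⟨fun u => ⟨f u, (hf u).trans_le hq⟩, fun u => ⟨g u, (hg u).trans_le hq⟩, ?_⟩
  unfold numSat
  rw [List.countP_eq_length]
  intro e he
  unfold game dbl at he
  simp only [List.mem_flatMap, List.mem_cons, List.not_mem_nil, or_false] at he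
  obtain ⟨e', he', h'⟩ := he
  obtain ⟨_, _, a3, _⟩ := edges_ok (low_cls φ) hK (hBK hb hB hBK') he'
  have h1 := h e' he'
  rcases h' with rfl | rfl
  · rw [decide_eq_true_eq]
    simp only
    rw [ext_low a3 (hf _)]
    exact h1
  · rw [decide_eq_true_eq]
    simp only
    rw [ext_low a3 (hf _)]
    exact h1

theorem game_no (hb : ∀ v, (occ φ).count v ≤ B) (hB : 1 ≤ B) (hK1 : 1 ≤ K)
    (hBK' : 3 * B ≤ 6 * K) {k u : ℕ}
    (hK : ∀ A, φ.length ≤ k * (φ.length - H243R3.TP.numSat φ A))
    (hu : ∀ t : ℕ, φ.length ≤ k * t → u ≤ t) (f g : ℕ → Fin q) :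
    numSat (game q K φ) f g + K * u * (4 * (φ.length * (3 * K - 2))) ≤
      (game q K φ).2.length := by
  have h0 := numSat_add (edges φ.length K (cls φ)) (fun e he =>
    (edges_ok (low_cls φ) hK1 (hBK hb hB hBK') he).2.2.1) (nv φ.length K) f g
  have h2 := viol_ge (m := φ.length) (K := K) (cl := cls φ) (u := u) (fun x => by
      have hx := UGX.unsat_cls φ x ((occ φ).filter fun v => x (index (occ φ) v)) fun v hv => by
        rw [List.mem_filter]
        exact ⟨fun h => h.2, fun h => ⟨hv, h⟩⟩
      rw [← unsat_eq] at hx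
      refine hu _ ?_
      have h3 := hK ((occ φ).filter fun v => x (index (occ φ) v))
      have h4 : φ.length - H243R3.TP.numSat φ ((occ φ).filter fun v => x (index (occ φ) v)) =
        unsat φ.length (cls φ) x := by omega
      rwa [h4] at h3)
    (fun u => f u) (fun u => g u)
  unfold game
  rw [length_dbl]
  omega

end Game

end Pool.Agent.K6.H49.TTO
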